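import Mathlib
import Pool.Agent.MP_71ac24_nt.Cells

-- part MP_71ac24_nt.Basic
section

/-!
The divisor bound and Minkowski's linear forms theorem for unimodular systems.
-/

set_option autoImplicit false

open Finset MeasureTheory

namespace Pool.Agent.MP_71ac24_nt

lemma divisor_bound (ε : ℝ) (hε : 0 < ε) :
    ∃ C : ℝ, 1 ≤ C ∧ ∀ n : ℕ, (#n.divisors : ℝ) ≤ C * (n : ℝ) ^ ε := by
  have hl2 : 0 < Real.log 2 := Real.log_pos (by norm_num)
  set K : ℝ := max 1 (1 / (ε * Real.log 2)) with hK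
  have hK1 : 1 ≤ K := le_max_left _ _
  have hK2 : 1 ≤ K * (ε * Real.log 2) := by
    have : 1 / (ε * Real.log 2) ≤ K := le_max_right _ _
    rwa [div_le_iff₀ (by positivity)] at this
  set P : ℕ := ⌈(2 : ℝ) ^ (1 / ε)⌉₊ with hP
  refine ⟨K ^ P, one_le_pow₀ hK1, fun n => ?_⟩
  rcases Nat.eq_zero_or_pos n with rfl | hn
  · simp [Real.zero_rpow hε.ne']
  have hfac : (n : ℝ) ^ ε = ∏ p ∈ n.primeFactors, ((p : ℝ) ^ ε) ^ (n.factorization p) := by
    conv_lhs => rw [← Nat.prod_factorization_pow_eq_self hn.ne']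
    rw [Finsupp.prod, Nat.support_factorization]
    push_cast
    rw [← Real.finsetProd_rpow _ _ (fun i _ => by positivity)]
    refine Finset.prod_congr rfl fun p _ => ?_
    rw [← Real.rpow_natCast, ← Real.rpow_natCast, ← Real.rpow_mul (by positivity),
      ← Real.rpow_mul (by positivity), mul_comm]
  have hc : ∏ p ∈ n.primeFactors, (if p < P then K else 1) ≤ K ^ P := by
    rw [Finset.prod_ite, Finset.prod_const, Finset.prod_const_one, mul_one]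
    refine pow_le_pow_right₀ hK1 ?_
    calc #{p ∈ n.primeFactors | p < P} ≤ #(Finset.range P) :=
          Finset.card_le_card fun p hp => by
            simp only [Finset.mem_filter] at hp
            exact Finset.mem_range.2 hp.2
      _ = P := Finset.card_range P
  rw [Nat.card_divisors hn.ne', hfac]
  push_cast
  refine le_trans ?_ (mul_le_mul_of_nonneg_right hc (Finset.prod_nonneg fun p _ => by positivity))
  rw [← Finset.prod_mul_distrib]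
  refine Finset.prod_le_prod (fun p _ => by positivity) fun p hp => ?_
  have hp2 : (2 : ℝ) ≤ p := by exact_mod_cast (Nat.prime_of_mem_primeFactors hp).two_le
  set v := n.factorization p
  split_ifs with h
  · have h1 : ((2 : ℝ) ^ ε) ^ v ≤ ((p : ℝ) ^ ε) ^ v :=
      pow_le_pow_left₀ (by positivity) (Real.rpow_le_rpow (by norm_num) hp2 hε.le) v
    have h2 : 1 + v * (ε * Real.log 2) ≤ ((2 : ℝ) ^ ε) ^ v := by
      rw [Real.rpow_def_of_pos (by norm_num), ← Real.exp_nat_mul]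
      have := Real.add_one_le_exp (v * (Real.log 2 * ε))
      linarith [mul_comm ε (Real.log 2)]
    have hv : (0 : ℝ) ≤ v := by positivity
    calc (v : ℝ) + 1 ≤ K * (1 + v * (ε * Real.log 2)) := by nlinarith
      _ ≤ _ := mul_le_mul_of_nonneg_left (h2.trans h1) (by linarith)
  · have h1 : (2 : ℝ) ^ (1 / ε) ≤ p := by
      have : (P : ℝ) ≤ p := by exact_mod_cast not_lt.1 h
      exact (Nat.le_ceil _).trans this
    have h2 : (2 : ℝ) ≤ (p : ℝ) ^ ε := by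
      have := Real.rpow_le_rpow (by positivity) h1 hε.le
      rwa [← Real.rpow_mul (by norm_num), one_div_mul_cancel hε.ne', Real.rpow_one] at this
    have h3 : (v : ℝ) + 1 ≤ 2 ^ v := by
      have := one_add_mul_le_pow (show (-2 : ℝ) ≤ 1 by norm_num) v
      norm_num at this
      linarith
    rw [one_mul]
    exact h3.trans (pow_le_pow_left₀ (by norm_num) h2 v)

/-- Minkowski's linear forms theorem for a matrix of determinant one. -/
lemma linear_forms {r : ℕ} (A : Matrix (Fin r) (Fin r) ℝ) (hA : A.det = 1) (b : Fin r → ℝ)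
    (hb : ∀ i, 0 < b i) (hprod : 1 < ∏ i, b i) :
    ∃ z : Fin r → ℤ, z ≠ 0 ∧ ∀ i, |∑ j, A i j * z j| ≤ b i := by
  set f : (Fin r → ℝ) →ₗ[ℝ] (Fin r → ℝ) := Matrix.toLin' A with hf
  have hdet : LinearMap.det f = 1 := by rw [hf, LinearMap.det_toLin', hA]
  set e := Pi.basisFun ℝ (Fin r) with he
  have hcount : Countable (Submodule.span ℤ (Set.range e)).toAddSubgroup := by
    change Countable (Submodule.span ℤ (Set.range e))
    infer_instance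
  obtain ⟨x, hx0, hx⟩ := exists_ne_zero_mem_lattice_of_measure_mul_two_pow_lt_measure
    (ZSpan.isAddFundamentalDomain' e volume) (s := f ⁻¹' Set.Icc (-b) b)
    (by
      intro x hx
      simp only [Set.mem_preimage, map_neg, Set.mem_Icc] at hx ⊢
      exact ⟨neg_le_neg hx.2, neg_le.1 hx.1⟩)
    ((convex_Icc _ _).linear_preimage f) (by
      rw [Measure.addHaar_preimage_linearMap _ (by rw [hdet]; norm_num), hdet,
        Real.volume_Icc_pi, ZSpan.volume_fundamentalDomain]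
      have e1 : (Matrix.of ⇑e).det = 1 := by
        have : Matrix.of ⇑e = 1 := by
          ext i j; simp [he, Matrix.one_apply, Pi.single_apply, eq_comm]
        rw [this, Matrix.det_one]
      rw [e1, abs_one, ENNReal.ofReal_one, one_mul, inv_one, abs_one, ENNReal.ofReal_one, one_mul,
        ← ENNReal.ofReal_prod_of_nonneg (fun i _ => by simp; linarith [hb i])]
      simp only [Module.finrank_fintype_fun_eq_card, Fintype.card_fin]
      have : (2 : ENNReal) ^ r = ENNReal.ofReal (2 ^ r) := by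
        rw [ENNReal.ofReal_pow (by norm_num)]; simp
      rw [this, ENNReal.ofReal_lt_ofReal_iff_of_nonneg (by positivity)]
      have h2 : ∏ i, (b i - (-b) i) = 2 ^ r * ∏ i, b i := by
        rw [show (2 : ℝ) ^ r = ∏ _i : Fin r, (2 : ℝ) by simp, ← Finset.prod_mul_distrib]
        exact Finset.prod_congr rfl fun i _ => by simp; ring
      rw [h2]
      have h4 : (0 : ℝ) < 2 ^ r := by positivity
      nlinarith)
  have hint : ∀ i, ∃ z : ℤ, (z : ℝ) = (x : Fin r → ℝ) i := by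
    intro i
    have := (e.mem_span_iff_repr_mem ℤ (x : Fin r → ℝ)).1 x.2 i
    simpa [he] using this
  choose c hc using hint
  refine ⟨c, ?_, fun i => ?_⟩
  · intro h
    apply hx0
    apply Subtype.ext
    funext i
    rw [← hc i, h]; simp
  · rw [Set.mem_preimage, hf, Matrix.toLin'_apply, Set.mem_Icc] at hx
    have h1 := hx.1 i
    have h2 := hx.2 i
    simp only [Matrix.mulVec, dotProduct, Pi.neg_apply, ← hc] at h1 h2
    exact abs_le.2 ⟨h1, h2⟩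

end Pool.Agent.MP_71ac24_nt

end

-- part MP_71ac24_nt.Arith
section

/-!
Integer points `x` at which a quotient of two integer polynomials of degree at most two has small
height: many such points contain four points with large gaps.
-/

set_option autoImplicit false

open Finset

namespace Pool.Agent.MP_71ac24_nt

lemma exists_quot {a q P S : ℤ} (hc : IsCoprime a q) (hq : 0 < q) (h : q * P = a * S) :
    ∃ e : ℤ, S = e * q ∧ P = e * a := by
  have h1 : q ∣ S := hc.symm.dvd_of_dvd_mul_left ⟨P, h.symm⟩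
  obtain ⟨e, he⟩ := h1
  refine ⟨e, by rw [he, mul_comm], ?_⟩
  apply mul_left_cancel₀ hq.ne'
  rw [h, he]; ring

lemma dvd_of_gcd {E y u E' : ℤ} (hE : E ≠ 0) (h : E ∣ y * u) (hE' : E = (Int.gcd E y : ℤ) * E') :
    E' ∣ u := by
  obtain ⟨c, hc⟩ := h
  have hg : (Int.gcd E y : ℤ) ≠ 0 := by
    intro h0; rw [h0, zero_mul] at hE'; exact hE hE'
  have hb := Int.gcd_eq_gcd_ab E y
  refine ⟨Int.gcdA E y * u + c * Int.gcdB E y, ?_⟩
  apply mul_left_cancel₀ hg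
  rw [← mul_assoc, ← hE']
  calc (Int.gcd E y : ℤ) * u = (E * Int.gcdA E y + y * Int.gcdB E y) * u := by rw [← hb]
    _ = E * Int.gcdA E y * u + (y * u) * Int.gcdB E y := by ring
    _ = _ := by rw [hc]; ring

lemma exists_primitive {n : ℕ} (v : Fin n → ℤ) (hv : v ≠ 0) :
    ∃ (g : ℤ) (w u : Fin n → ℤ), g ≠ 0 ∧ (∀ i, v i = g * w i) ∧ ∑ i, w i * u i = 1 ∧
      ∀ i, |w i| ≤ |v i| := by
  obtain ⟨u, hu⟩ := Finset.gcd_eq_sum_mul (Finset.univ : Finset (Fin n)) v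
  set g := (Finset.univ : Finset (Fin n)).gcd v with hg
  have hg0 : g ≠ 0 := by
    intro h
    apply hv
    funext i
    exact Finset.gcd_eq_zero_iff.1 h i (Finset.mem_univ i)
  have hd : ∀ i, ∃ w, v i = g * w := fun i => Finset.gcd_dvd (Finset.mem_univ i)
  choose w hw using hd
  refine ⟨g, w, u, hg0, hw, ?_, fun i => ?_⟩
  · apply mul_left_cancel₀ hg0
    rw [mul_one, Finset.mul_sum]
    conv_rhs => rw [hu]
    exact Finset.sum_congr rfl fun i _ => by rw [hw i]; ring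
  · rw [hw i, abs_mul]
    have : 1 ≤ |g| := Int.one_le_abs hg0
    nlinarith [abs_nonneg (w i)]

/-- Many points have the same cofactor. -/
lemma same_cofactor (J : Finset ℤ) (a q P S : ℤ → ℤ) (D : ℤ) (hD : D ≠ 0) (τ m : ℕ)
    (hc : ∀ x ∈ J, IsCoprime (a x) (q x)) (hq : ∀ x ∈ J, 0 < q x)
    (he : ∀ x ∈ J, q x * P x = a x * S x) (hdiv : ∀ x e, e ∣ S x → e ∣ P x → e ∣ D)
    (hτ : ∀ n : ℕ, (n : ℤ) ≤ |D| → #n.divisors ≤ τ) (hJ : τ * m < #J) :
    ∃ (E : ℕ) (J' : Finset ℤ), 1 ≤ E ∧ (E : ℤ) ≤ |D| ∧ J' ⊆ J ∧ m < #J' ∧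
      ∀ x ∈ J', |S x| = E * q x ∧ (E : ℤ) ∣ S x ∧ (E : ℤ) ∣ P x := by
  classical
  have hex : ∀ x, ∃ e : ℤ, x ∈ J → S x = e * q x ∧ P x = e * a x := by
    intro x
    by_cases hx : x ∈ J
    · obtain ⟨e, h⟩ := exists_quot (hc x hx) (hq x hx) (he x hx)
      exact ⟨e, fun _ => h⟩
    · exact ⟨0, fun h => absurd h hx⟩
  choose e hee using hex
  have hmaps : ∀ x ∈ J, (e x).natAbs ∈ D.natAbs.divisors := by
    intro x hx
    rw [Nat.mem_divisors]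
    refine ⟨Int.natAbs_dvd_natAbs.2 (hdiv x _ ?_ ?_), Int.natAbs_ne_zero.2 hD⟩
    · exact ⟨q x, (hee x hx).1⟩
    · exact ⟨a x, (hee x hx).2⟩
  have hcard : #D.natAbs.divisors * m < #J :=
    lt_of_le_of_lt (Nat.mul_le_mul_right m (hτ _ (by simp))) hJ
  obtain ⟨E, hE, hlt⟩ := Finset.exists_lt_card_fiber_of_mul_lt_card_of_maps_to hmaps hcard
  have hE1 : 1 ≤ E := Nat.pos_of_mem_divisors hE
  have hE2 : E ≤ D.natAbs := Nat.divisor_le hE
  refine ⟨E, _, hE1, by rw [← Int.natCast_natAbs]; exact_mod_cast hE2, Finset.filter_subset _ _,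
    hlt, fun x hx => ?_⟩
  obtain ⟨hxJ, hxE⟩ := Finset.mem_filter.1 hx
  have h1 : |e x| = E := by rw [← hxE, Int.natCast_natAbs]
  refine ⟨by rw [(hee x hxJ).1, abs_mul, h1, abs_of_pos (hq x hxJ)], ?_, ?_⟩
  · rw [← h1, abs_dvd, (hee x hxJ).1]; exact dvd_mul_right _ _
  · rw [← h1, abs_dvd, (hee x hxJ).2]; exact dvd_mul_right _ _

/-- Degree one. -/
lemma gap_one {s0 s1 p0 p1 u0 u1 u2 u3 E x y : ℤ} (hb : s0 * u0 + s1 * u1 + p0 * u2 + p1 * u3 = 1)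
    (h1 : E ∣ s1 * x + s0) (h2 : E ∣ p1 * x + p0) (h3 : E ∣ s1 * y + s0)
    (h4 : E ∣ p1 * y + p0) : E ∣ x - y := by
  obtain ⟨c1, h1⟩ := h1
  obtain ⟨c2, h2⟩ := h2
  obtain ⟨c3, h3⟩ := h3
  obtain ⟨c4, h4⟩ := h4
  refine ⟨(c3 * x - c1 * y) * u0 + (c1 - c3) * u1 + (c4 * x - c2 * y) * u2 + (c2 - c4) * u3, ?_⟩
  linear_combination (-(x - y)) * hb + (u1 - y * u0) * h1 + (u3 - y * u2) * h2 +
    (x * u0 - u1) * h3 + (x * u2 - u3) * h4

lemma coeff_dvd {c0 c1 c2 E E' x y z : ℤ} (hE : E ≠ 0) (hg : Int.gcd E (x - z) = Int.gcd E (y - z))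
    (hE' : E = (Int.gcd E (x - z) : ℤ) * E') (hx : E ∣ c2 * x ^ 2 + c1 * x + c0)
    (hy : E ∣ c2 * y ^ 2 + c1 * y + c0) (hz : E ∣ c2 * z ^ 2 + c1 * z + c0) :
    E' ∣ c0 * (x - y) ∧ E' ∣ c1 * (x - y) ∧ E' ∣ c2 * (x - y) := by
  have h1 : E' ∣ c2 * (x + z) + c1 := by
    refine dvd_of_gcd hE ?_ hE'
    have : (x - z) * (c2 * (x + z) + c1) = (c2 * x ^ 2 + c1 * x + c0) - (c2 * z ^ 2 + c1 * z + c0) := by
      ring
    rw [this]; exact dvd_sub hx hz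
  have h2 : E' ∣ c2 * (y + z) + c1 := by
    refine dvd_of_gcd hE ?_ (hg ▸ hE')
    have : (y - z) * (c2 * (y + z) + c1) = (c2 * y ^ 2 + c1 * y + c0) - (c2 * z ^ 2 + c1 * z + c0) := by
      ring
    rw [this]; exact dvd_sub hy hz
  have h3 : E' ∣ c2 * x ^ 2 + c1 * x + c0 := (Dvd.intro_left _ hE'.symm).trans hx
  obtain ⟨d1, h1⟩ := h1
  obtain ⟨d2, h2⟩ := h2
  obtain ⟨d3, h3⟩ := h3
  refine ⟨⟨d3 * (x - y) - x * d1 * (x - y) + x * z * (d1 - d2), ?_⟩,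
    ⟨d1 * (x - y) - (x + z) * (d1 - d2), ?_⟩, ⟨d1 - d2, ?_⟩⟩
  · linear_combination (x - y) * h3 - x * (x - y) * h1 + x * z * h1 - x * z * h2
  · linear_combination (x - y) * h1 - (x + z) * h1 + (x + z) * h2
  · linear_combination h1 - h2

/-- Degree two. -/
lemma gap_two (J : Finset ℤ) {s0 s1 s2 p0 p1 p2 u0 u1 u2 u3 u4 u5 : ℤ} {E : ℕ} (hE : 1 ≤ E)
    (hb : s0 * u0 + s1 * u1 + s2 * u2 + p0 * u3 + p1 * u4 + p2 * u5 = 1)
    (hS : ∀ x ∈ J, (E : ℤ) ∣ s2 * x ^ 2 + s1 * x + s0)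
    (hP : ∀ x ∈ J, (E : ℤ) ∣ p2 * x ^ 2 + p1 * x + p0) (τ : ℕ) (hτ : #E.divisors ≤ τ)
    (hJ : 3 * τ + 1 < #J) :
    ∃ J' ⊆ J, 3 < #J' ∧ ∀ x ∈ J', ∀ y ∈ J', (E : ℤ) ∣ (x - y) ^ 2 := by
  classical
  obtain ⟨z, hz⟩ : J.Nonempty := Finset.card_pos.1 (by omega)
  have hE0 : (E : ℤ) ≠ 0 := by exact_mod_cast (by omega : E ≠ 0)
  have hmaps : ∀ x ∈ J, Int.gcd E (x - z) ∈ E.divisors := by
    intro x _
    rw [Nat.mem_divisors]
    refine ⟨?_, by omega⟩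
    have := Int.gcd_dvd_left (a := (E : ℤ)) (b := x - z)
    exact_mod_cast this
  have hcard : #E.divisors * 3 < #J := by omega
  obtain ⟨g, -, hlt⟩ := Finset.exists_lt_card_fiber_of_mul_lt_card_of_maps_to hmaps hcard
  refine ⟨_, Finset.filter_subset _ _, hlt, fun x hx y hy => ?_⟩
  obtain ⟨hxJ, hxg⟩ := Finset.mem_filter.1 hx
  obtain ⟨hyJ, hyg⟩ := Finset.mem_filter.1 hy
  obtain ⟨E', hE'⟩ := Int.gcd_dvd_left (a := (E : ℤ)) (b := x - z)
  have hg : Int.gcd E (x - z) = Int.gcd E (y - z) := hxg.trans hyg.symm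
  obtain ⟨a0, a1, a2⟩ := coeff_dvd hE0 hg hE' (hS x hxJ) (hS y hyJ) (hS z hz)
  obtain ⟨b0, b1, b2⟩ := coeff_dvd hE0 hg hE' (hP x hxJ) (hP y hyJ) (hP z hz)
  have h1 : E' ∣ x - y := by
    have : x - y = s0 * (x - y) * u0 + s1 * (x - y) * u1 + s2 * (x - y) * u2 + p0 * (x - y) * u3 +
        p1 * (x - y) * u4 + p2 * (x - y) * u5 := by linear_combination (-(x - y)) * hb
    rw [this]
    exact dvd_add (dvd_add (dvd_add (dvd_add (dvd_add (a0.mul_right _) (a1.mul_right _))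
      (a2.mul_right _)) (b0.mul_right _)) (b1.mul_right _)) (b2.mul_right _)
  have h2 : (Int.gcd E (x - z) : ℤ) ∣ x - y := by
    have h3 : (Int.gcd E (x - z) : ℤ) ∣ x - z := Int.gcd_dvd_right _ _
    have h4 : (Int.gcd E (x - z) : ℤ) ∣ y - z := by rw [hg]; exact Int.gcd_dvd_right _ _
    have : x - y = (x - z) - (y - z) := by ring
    rw [this]; exact dvd_sub h3 h4
  rw [hE', sq]
  exact mul_dvd_mul h2 h1

end Pool.Agent.MP_71ac24_nt

end

-- part MP_71ac24_nt.Curve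
section

/-!
Many points of small height on a rational curve of degree at most two.
-/

set_option autoImplicit false

open Finset

namespace Pool.Agent.MP_71ac24_nt

/-- The conclusion of the arithmetic step: four points with gaps at least `ℓ` on a curve of exact
degree two whose denominator is small at these points. -/
def Spread (J : Finset ℤ) (a q : ℤ → ℤ) (L : ℝ) : Prop :=
  ∃ s0 s1 s2 p0 p1 p2 : ℤ, (s2 ≠ 0 ∨ p2 ≠ 0) ∧ ∃ ℓ : ℝ, 1 ≤ ℓ ∧ ∃ J' ⊆ J, 3 < #J' ∧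
    (∀ x ∈ J', q x * (p2 * x ^ 2 + p1 * x + p0) = a x * (s2 * x ^ 2 + s1 * x + s0) ∧
      |((s2 * x ^ 2 + s1 * x + s0 : ℤ) : ℝ)| ≤ q x * ℓ * L) ∧
    ∀ x ∈ J', ∀ y ∈ J', x ≠ y → ℓ ≤ |(x : ℝ) - y|

lemma Spread.mono {J J' : Finset ℤ} {a q : ℤ → ℤ} {L : ℝ} (h : Spread J a q L) (hJ : J ⊆ J') :
    Spread J' a q L := by
  obtain ⟨s0, s1, s2, p0, p1, p2, h1, ℓ, h2, J'', h3, h4⟩ := h
  exact ⟨s0, s1, s2, p0, p1, p2, h1, ℓ, h2, J'', h3.trans hJ, h4⟩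

lemma curve_one (J : Finset ℤ) (a q : ℤ → ℤ) (L : ℝ) (s0 s1 p0 p1 : ℤ)
    (hC : p1 * s0 - p0 * s1 ≠ 0) (hJL : ∀ x ∈ J, 0 ≤ x ∧ (x : ℝ) ≤ L)
    (hc : ∀ x ∈ J, IsCoprime (a x) (q x)) (hq : ∀ x ∈ J, 0 < q x)
    (he : ∀ x ∈ J, q x * (p1 * x + p0) = a x * (s1 * x + s0)) (τ : ℕ)
    (hτ : ∀ n : ℕ, (n : ℤ) ≤ |p1 * s0 - p0 * s1| → #n.divisors ≤ τ) (hJ : τ * 3 < #J) :
    Spread J a q L := by
  obtain ⟨g, w, u, hg, hw, hu, -⟩ := exists_primitive ![s0, s1, p0, p1] (by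
    intro h
    have h0 := congrFun h 0
    have h1 := congrFun h 1
    simp at h0 h1
    simp [h0, h1] at hC)
  have e0 : s0 = g * w 0 := hw 0
  have e1 : s1 = g * w 1 := hw 1
  have e2 : p0 = g * w 2 := hw 2
  have e3 : p1 = g * w 3 := hw 3
  rw [Fin.sum_univ_four] at hu
  have hD : p1 * s0 - p0 * s1 = g ^ 2 * (w 3 * w 0 - w 2 * w 1) := by rw [e0, e1, e2, e3]; ring
  have hD0 : w 3 * w 0 - w 2 * w 1 ≠ 0 := by intro h; rw [h, mul_zero] at hD; exact hC hD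
  have he' : ∀ x ∈ J, q x * (w 3 * x + w 2) = a x * (w 1 * x + w 0) := by
    intro x hx
    apply mul_left_cancel₀ hg
    have := he x hx
    rw [e0, e1, e2, e3] at this
    linear_combination this
  obtain ⟨E, J', hE1, -, hJ', hlt, hE⟩ := same_cofactor J a q (fun x => w 3 * x + w 2)
    (fun x => w 1 * x + w 0) _ hD0 τ 3 hc hq he' (by
      rintro x e ⟨c, h1⟩ ⟨d, h2⟩
      exact ⟨w 3 * c - w 1 * d, by linear_combination w 3 * h1 - w 1 * h2⟩) (by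
      intro n hn
      refine hτ n (hn.trans ?_)
      rw [hD, abs_mul]
      have : 1 ≤ |g ^ 2| := Int.one_le_abs (pow_ne_zero _ hg)
      nlinarith [abs_nonneg (w 3 * w 0 - w 2 * w 1)]) hJ
  refine ⟨0, w 0, w 1, 0, w 2, w 3, ?_, E, by exact_mod_cast hE1, J', hJ', hlt, fun x hx => ⟨?_, ?_⟩,
    fun x hx y hy hxy => ?_⟩
  · by_contra h
    push Not at h
    simp [h.1, h.2] at hD0
  · linear_combination x * he' x (hJ' hx)
  · have h1 : w 1 * x ^ 2 + w 0 * x + 0 = (w 1 * x + w 0) * x := by ring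
    have h2 := (hE x hx).1
    have h3 := hJL x (hJ' hx)
    have h4 : (0 : ℝ) < q x := by exact_mod_cast hq x (hJ' hx)
    rw [h1, ← Int.cast_abs, abs_mul, h2, abs_of_nonneg h3.1]
    push_cast
    rw [mul_comm (E : ℝ)]
    exact mul_le_mul_of_nonneg_left h3.2 (by positivity)
  · have h1 := gap_one hu (hE x hx).2.1 (hE x hx).2.2 (hE y hy).2.1 (hE y hy).2.2
    have h2 : (E : ℤ) ≤ |x - y| := Int.le_of_dvd (abs_pos.2 (sub_ne_zero.2 hxy)) ((dvd_abs _ _).2 h1)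
    exact_mod_cast h2

lemma curve_two (J : Finset ℤ) (a q : ℤ → ℤ) (L : ℝ) (s0 s1 s2 p0 p1 p2 u0 u1 u2 u3 u4 u5 : ℤ)
    (hb : s0 * u0 + s1 * u1 + s2 * u2 + p0 * u3 + p1 * u4 + p2 * u5 = 1)
    (hD : (p2 * s0 - p0 * s2) ^ 2 - (p2 * s1 - p1 * s2) * (p1 * s0 - p0 * s1) ≠ 0)
    (hJL : ∀ x ∈ J, 0 ≤ x ∧ (x : ℝ) ≤ L)
    (hc : ∀ x ∈ J, IsCoprime (a x) (q x)) (hq : ∀ x ∈ J, 0 < q x)
    (he : ∀ x ∈ J, q x * (p2 * x ^ 2 + p1 * x + p0) = a x * (s2 * x ^ 2 + s1 * x + s0)) (τ : ℕ)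
    (hτ : ∀ n : ℕ, (n : ℤ) ≤ |(p2 * s0 - p0 * s2) ^ 2 - (p2 * s1 - p1 * s2) * (p1 * s0 - p0 * s1)| →
      #n.divisors ≤ τ) (hJ : τ * (3 * τ + 1) < #J) :
    Spread J a q L := by
  obtain ⟨E, J1, hE1, hED, hJ1, hlt, hE⟩ := same_cofactor J a q (fun x => p2 * x ^ 2 + p1 * x + p0)
    (fun x => s2 * x ^ 2 + s1 * x + s0) _ hD τ (3 * τ + 1) hc hq he (by
      rintro x e ⟨c, h1⟩ ⟨d, h2⟩
      refine ⟨(p2 * s0 - p0 * s2) * (p2 * c - s2 * d) -
        (p2 * s1 - p1 * s2) * (x * (p2 * c - s2 * d) + (p1 * c - s1 * d)), ?_⟩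
      linear_combination ((p2 * s0 - p0 * s2) * p2 - (p2 * s1 - p1 * s2) * (x * p2 + p1)) * h1 +
        (-(p2 * s0 - p0 * s2) * s2 + (p2 * s1 - p1 * s2) * (x * s2 + s1)) * h2) hτ hJ
  obtain ⟨J', hJ', hlt', hgap⟩ := gap_two J1 hE1 hb (fun x hx => (hE x hx).2.1)
    (fun x hx => (hE x hx).2.2) τ (hτ E hED) hlt
  have hsq : ∀ x ∈ J', ∀ y ∈ J', x ≠ y → Real.sqrt E ≤ |(x : ℝ) - y| := by
    intro x hx y hy hxy
    have h2 : (E : ℤ) ≤ (x - y) ^ 2 :=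
      Int.le_of_dvd (sq_pos_of_ne_zero (sub_ne_zero.2 hxy)) (hgap x hx y hy)
    rw [← Real.sqrt_sq_eq_abs]
    exact Real.sqrt_le_sqrt (by exact_mod_cast h2)
  have hℓL : Real.sqrt E ≤ L := by
    obtain ⟨x, hx, y, hy, hxy⟩ := Finset.one_lt_card.1 (show 1 < #J' by omega)
    refine (hsq x hx y hy hxy).trans ?_
    have h1 := hJL x (hJ1 (hJ' hx))
    have h2 := hJL y (hJ1 (hJ' hy))
    have h3 : (0 : ℝ) ≤ x := by exact_mod_cast h1.1
    have h4 : (0 : ℝ) ≤ y := by exact_mod_cast h2.1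
    rw [abs_le]; constructor <;> linarith [h1.2, h2.2]
  refine ⟨s0, s1, s2, p0, p1, p2, ?_, Real.sqrt E, ?_, J', hJ'.trans hJ1, hlt',
    fun x hx => ⟨he x (hJ1 (hJ' hx)), ?_⟩, hsq⟩
  · by_contra h
    push Not at h
    simp [h.1, h.2] at hD
  · rw [Real.one_le_sqrt]; exact_mod_cast hE1
  · have h2 := (hE x (hJ' hx)).1
    have h4 : (0 : ℝ) < q x := by exact_mod_cast hq x (hJ1 (hJ' hx))
    rw [← Int.cast_abs, h2]
    push_cast
    have h5 : (E : ℝ) = Real.sqrt E * Real.sqrt E := (Real.mul_self_sqrt (by positivity)).symm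
    have h6 : 0 ≤ Real.sqrt E := Real.sqrt_nonneg _
    calc (E : ℝ) * q x = q x * Real.sqrt E * Real.sqrt E := by rw [mul_assoc, ← h5, mul_comm]
      _ ≤ _ := mul_le_mul_of_nonneg_left hℓL (by positivity)

lemma three_roots {c0 c1 c2 x y z : ℤ} (hxy : x ≠ y) (hxz : x ≠ z) (hyz : y ≠ z)
    (hx : c2 * x ^ 2 + c1 * x + c0 = 0) (hy : c2 * y ^ 2 + c1 * y + c0 = 0)
    (hz : c2 * z ^ 2 + c1 * z + c0 = 0) : c0 = 0 ∧ c1 = 0 ∧ c2 = 0 := by
  have h1 : c2 * (x + y) + c1 = 0 := by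
    apply mul_left_cancel₀ (sub_ne_zero.2 hxy); linear_combination hx - hy
  have h2 : c2 * (x + z) + c1 = 0 := by
    apply mul_left_cancel₀ (sub_ne_zero.2 hxz); linear_combination hx - hz
  have h3 : c2 = 0 := by
    apply mul_left_cancel₀ (sub_ne_zero.2 hyz); linear_combination h1 - h2
  have h4 : c1 = 0 := by rw [h3] at h1; simpa using h1
  refine ⟨?_, h4, h3⟩
  rw [h3, h4] at hx; simpa using hx

lemma abs_minor_le {a b c d H : ℤ} (ha : |a| ≤ H) (hb : |b| ≤ H) (hc : |c| ≤ H) (hd : |d| ≤ H) :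
    |a * b - c * d| ≤ 2 * H ^ 2 := by
  have h0 : 0 ≤ H := (abs_nonneg _).trans ha
  calc |a * b - c * d| ≤ |a * b| + |c * d| := abs_sub _ _
    _ = |a| * |b| + |c| * |d| := by rw [abs_mul, abs_mul]
    _ ≤ H * H + H * H := by gcongr
    _ = _ := by ring

lemma curve_cases (J : Finset ℤ) (a q : ℤ → ℤ) (L : ℝ) (v : Fin 6 → ℤ) (hv : v ≠ 0) (H : ℤ)
    (hH : ∀ i, |v i| ≤ H) (hJL : ∀ x ∈ J, 0 ≤ x ∧ (x : ℝ) ≤ L)
    (hc : ∀ x ∈ J, IsCoprime (a x) (q x)) (hq : ∀ x ∈ J, 0 < q x)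
    (he : ∀ x ∈ J, q x * (v 5 * x ^ 2 + v 4 * x + v 3) = a x * (v 2 * x ^ 2 + v 1 * x + v 0))
    (hinj : ∀ x ∈ J, ∀ y ∈ J, a x * q y = a y * q x → x = y) (τ : ℕ)
    (hτ : ∀ n : ℕ, (n : ℤ) ≤ 8 * H ^ 6 → #n.divisors ≤ τ) (hJ : τ * (3 * τ + 3) + 3 < #J) :
    Spread J a q L := by
  classical
  obtain ⟨g, w, u, hg, hw, hu, hwv⟩ := exists_primitive v hv
  rw [Fin.sum_univ_six] at hu
  have hH' : ∀ i, |w i| ≤ H := fun i => (hwv i).trans (hH i)
  have hH1 : 1 ≤ H := by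
    obtain ⟨i, hi⟩ := Function.ne_iff.1 hv
    exact (Int.one_le_abs hi).trans (hH i)
  have he' : ∀ x ∈ J, q x * (w 5 * x ^ 2 + w 4 * x + w 3) = a x * (w 2 * x ^ 2 + w 1 * x + w 0) := by
    intro x hx
    apply mul_left_cancel₀ hg
    have := he x hx
    rw [hw 0, hw 1, hw 2, hw 3, hw 4, hw 5] at this
    linear_combination this
  have hA := abs_minor_le (hH' 5) (hH' 1) (hH' 4) (hH' 2)
  have hB := abs_minor_le (hH' 5) (hH' 0) (hH' 3) (hH' 2)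
  have hC := abs_minor_le (hH' 4) (hH' 0) (hH' 3) (hH' 1)
  have hH2 : H ^ 2 ≤ H ^ 6 := pow_le_pow_right₀ hH1 (by norm_num)
  have hH4 : H ^ 4 ≤ H ^ 6 := pow_le_pow_right₀ hH1 (by norm_num)
  have hH6 : 0 ≤ H ^ 6 := by positivity
  have hτ3 : τ * 3 + 3 < #J := by nlinarith
  by_cases hD : (w 5 * w 0 - w 3 * w 2) ^ 2 - (w 5 * w 1 - w 4 * w 2) * (w 4 * w 0 - w 3 * w 1) = 0
  swap
  · refine curve_two J a q L _ _ _ _ _ _ _ _ _ _ _ _ hu hD hJL hc hq he' τ (fun n hn => hτ n ?_)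
      (by nlinarith)
    have := abs_minor_le hB hB hA hC
    rw [← sq] at this
    nlinarith
  by_cases hA0 : w 5 * w 1 - w 4 * w 2 = 0
  swap
  · set A := w 5 * w 1 - w 4 * w 2 with hAdef
    set B := w 5 * w 0 - w 3 * w 2 with hBdef
    have hdet : A * w 5 * (A * w 1 - w 2 * B) - (A * w 4 - w 5 * B) * (A * w 2) = A ^ 3 := by
      rw [hAdef]; ring
    have hcard : #{x ∈ J | A * x + B = 0} ≤ 1 := by
      refine Finset.card_le_one.2 fun x hx y hy => ?_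
      apply mul_left_cancel₀ hA0
      linear_combination (Finset.mem_filter.1 hx).2 - (Finset.mem_filter.1 hy).2
    have hsplit := Finset.card_filter_add_card_filter_not (s := J) (fun x => A * x + B = 0)
    refine (curve_one {x ∈ J | ¬ A * x + B = 0} a q L (A * w 1 - w 2 * B) (A * w 2)
      (A * w 4 - w 5 * B) (A * w 5) (by rw [hdet]; exact pow_ne_zero _ hA0)
      (fun x hx => hJL x (Finset.mem_filter.1 hx).1) (fun x hx => hc x (Finset.mem_filter.1 hx).1)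
      (fun x hx => hq x (Finset.mem_filter.1 hx).1) (fun x hx => ?_) τ (fun n hn => hτ n ?_)
      (by omega)).mono (Finset.filter_subset _ _)
    · obtain ⟨hxJ, hx0⟩ := Finset.mem_filter.1 hx
      apply mul_left_cancel₀ hx0
      have h1 : (A * x + B) * (A * w 2 * x + (A * w 1 - w 2 * B)) =
          A ^ 2 * (w 2 * x ^ 2 + w 1 * x + w 0) := by
        rw [hAdef, hBdef]; linear_combination (-w 2) * hD
      have h2 : (A * x + B) * (A * w 5 * x + (A * w 4 - w 5 * B)) =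
          A ^ 2 * (w 5 * x ^ 2 + w 4 * x + w 3) := by
        rw [hAdef, hBdef]; linear_combination (-w 5) * hD
      linear_combination q x * h2 - a x * h1 + A ^ 2 * he' x hxJ
    · rw [hdet, abs_pow] at hn
      refine hn.trans ?_
      calc |A| ^ 3 ≤ (2 * H ^ 2) ^ 3 := pow_le_pow_left₀ (abs_nonneg _) hA 3
        _ = _ := by ring
  have hB0 : w 5 * w 0 - w 3 * w 2 = 0 := by
    rw [hA0] at hD; simpa using hD
  by_cases hC0 : w 4 * w 0 - w 3 * w 1 = 0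
  swap
  · have h5 : w 5 = 0 := by
      apply mul_left_cancel₀ hC0; linear_combination w 4 * hB0 - w 3 * hA0
    have h2 : w 2 = 0 := by
      apply mul_left_cancel₀ hC0; linear_combination w 1 * hB0 - w 0 * hA0
    refine curve_one J a q L (w 0) (w 1) (w 3) (w 4) hC0 hJL hc hq (fun x hx => ?_) τ
      (fun n hn => hτ n (by linarith)) (by omega)
    have := he' x hx
    rw [h5, h2] at this
    linear_combination this
  exfalso
  have hsplit := Finset.card_filter_add_card_filter_not (s := J)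
    (fun x => w 2 * x ^ 2 + w 1 * x + w 0 = 0 ∧ w 5 * x ^ 2 + w 4 * x + w 3 = 0)
  have h1 : #{x ∈ J | w 2 * x ^ 2 + w 1 * x + w 0 = 0 ∧ w 5 * x ^ 2 + w 4 * x + w 3 = 0} ≤ 2 := by
    by_contra h
    obtain ⟨x, hx, y, hy, z, hz, hxy, hxz, hyz⟩ := Finset.two_lt_card.1 (not_le.1 h)
    have hx' := (Finset.mem_filter.1 hx).2
    have hy' := (Finset.mem_filter.1 hy).2
    have hz' := (Finset.mem_filter.1 hz).2
    obtain ⟨a0, a1, a2⟩ := three_roots hxy hxz hyz hx'.1 hy'.1 hz'.1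
    obtain ⟨a3, a4, a5⟩ := three_roots hxy hxz hyz hx'.2 hy'.2 hz'.2
    simp [a0, a1, a2, a3, a4, a5] at hu
  have h2 : #{x ∈ J | ¬ (w 2 * x ^ 2 + w 1 * x + w 0 = 0 ∧ w 5 * x ^ 2 + w 4 * x + w 3 = 0)} ≤ 1 := by
    refine Finset.card_le_one.2 fun x hx y hy => ?_
    obtain ⟨hxJ, hx0⟩ := Finset.mem_filter.1 hx
    obtain ⟨hyJ, hy0⟩ := Finset.mem_filter.1 hy
    obtain ⟨e, e1, e2⟩ := exists_quot (hc x hxJ) (hq x hxJ) (he' x hxJ)
    obtain ⟨f, f1, f2⟩ := exists_quot (hc y hyJ) (hq y hyJ) (he' y hyJ)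
    have he0 : e ≠ 0 := by rintro rfl; exact hx0 ⟨by simpa using e1, by simpa using e2⟩
    have hf0 : f ≠ 0 := by rintro rfl; exact hy0 ⟨by simpa using f1, by simpa using f2⟩
    refine hinj x hxJ y hyJ ?_
    apply mul_left_cancel₀ (mul_ne_zero he0 hf0)
    have h3 : (w 5 * x ^ 2 + w 4 * x + w 3) * (w 2 * y ^ 2 + w 1 * y + w 0) =
        (w 5 * y ^ 2 + w 4 * y + w 3) * (w 2 * x ^ 2 + w 1 * x + w 0) := by
      linear_combination (x ^ 2 * y - y ^ 2 * x) * hA0 + (x ^ 2 - y ^ 2) * hB0 + (x - y) * hC0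
    rw [e1, e2, f1, f2] at h3
    linear_combination h3
  omega

end Pool.Agent.MP_71ac24_nt

end

-- part MP_71ac24_nt.Analytic
section

/-!
A quotient of integer quadratics with small denominator cannot follow a slow exponential at four
well separated points.
-/

set_option autoImplicit false

open Finset

namespace Pool.Agent.MP_71ac24_nt

lemma dd_step {u w c x y ℓ Y : ℝ} (hℓ : 0 < ℓ) (hxy : ℓ ≤ |x - y|) (hu : |u| ≤ Y) (hw : |w| ≤ Y)
    (h : u - w = (x - y) * c) : |c| ≤ 2 * Y / ℓ := by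
  rw [le_div_iff₀ hℓ]
  calc |c| * ℓ ≤ |c| * |x - y| := mul_le_mul_of_nonneg_left hxy (abs_nonneg _)
    _ = |u - w| := by rw [h, abs_mul, mul_comm]
    _ ≤ |u| + |w| := abs_sub _ _
    _ ≤ _ := by linarith

lemma exp_taylor3 {u : ℝ} (h0 : 0 ≤ u) (h1 : u ≤ 1) :
    |Real.exp u - (1 + u + u ^ 2 / 2)| ≤ u ^ 3 := by
  have h := Real.exp_bound (x := u) (by rwa [abs_of_nonneg h0]) (n := 3) (by norm_num)
  simp only [Finset.sum_range_succ, Finset.sum_range_zero, Nat.factorial, abs_of_nonneg h0] at h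
  norm_num at h
  have : 0 ≤ u ^ 3 := by positivity
  linarith

lemma exp_taylor4 {u : ℝ} (h0 : 0 ≤ u) (h1 : u ≤ 1) :
    |Real.exp u - (1 + u + u ^ 2 / 2 + u ^ 3 / 6)| ≤ u ^ 4 := by
  have h := Real.exp_bound (x := u) (by rwa [abs_of_nonneg h0]) (n := 4) (by norm_num)
  simp only [Finset.sum_range_succ, Finset.sum_range_zero, Nat.factorial, abs_of_nonneg h0] at h
  norm_num at h
  have : 0 ≤ u ^ 4 := by positivity
  linarith

lemma quartic_dd {c0 c1 c2 c3 c4 x0 x1 x2 x3 ℓ Y : ℝ} (hℓ : 0 < ℓ)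
    (h01 : ℓ ≤ |x0 - x1|) (h02 : ℓ ≤ |x0 - x2|) (h03 : ℓ ≤ |x0 - x3|) (h12 : ℓ ≤ |x1 - x2|)
    (h13 : ℓ ≤ |x1 - x3|) (h23 : ℓ ≤ |x2 - x3|)
    (g0 : |c4 * x0 ^ 4 + c3 * x0 ^ 3 + c2 * x0 ^ 2 + c1 * x0 + c0| ≤ Y)
    (g1 : |c4 * x1 ^ 4 + c3 * x1 ^ 3 + c2 * x1 ^ 2 + c1 * x1 + c0| ≤ Y)
    (g2 : |c4 * x2 ^ 4 + c3 * x2 ^ 3 + c2 * x2 ^ 2 + c1 * x2 + c0| ≤ Y)
    (g3 : |c4 * x3 ^ 4 + c3 * x3 ^ 3 + c2 * x3 ^ 2 + c1 * x3 + c0| ≤ Y) :
    |c4 * (x0 + x1 + x2 + x3) + c3| ≤ 8 * Y / ℓ ^ 3 ∧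
    |c4 * (x0 ^ 2 + x1 ^ 2 + x2 ^ 2 + x0 * x1 + x0 * x2 + x1 * x2) + c3 * (x0 + x1 + x2) + c2|
      ≤ 4 * Y / ℓ ^ 2 := by
  have d : ∀ {x y : ℝ}, ℓ ≤ |x - y| → |c4 * x ^ 4 + c3 * x ^ 3 + c2 * x ^ 2 + c1 * x + c0| ≤ Y →
      |c4 * y ^ 4 + c3 * y ^ 3 + c2 * y ^ 2 + c1 * y + c0| ≤ Y →
      |c4 * (x ^ 3 + x ^ 2 * y + x * y ^ 2 + y ^ 3) + c3 * (x ^ 2 + x * y + y ^ 2) + c2 * (x + y) + c1|
        ≤ 2 * Y / ℓ := fun h a b => dd_step hℓ h a b (by ring)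
  have e2 : |c4 * (x0 ^ 2 + x1 ^ 2 + x2 ^ 2 + x0 * x1 + x0 * x2 + x1 * x2) + c3 * (x0 + x1 + x2) + c2|
      ≤ 2 * (2 * Y / ℓ) / ℓ := dd_step hℓ h12 (d h01 g0 g1) (d h02 g0 g2) (by ring)
  have e3 : |c4 * (x0 ^ 2 + x1 ^ 2 + x3 ^ 2 + x0 * x1 + x0 * x3 + x1 * x3) + c3 * (x0 + x1 + x3) + c2|
      ≤ 2 * (2 * Y / ℓ) / ℓ := dd_step hℓ h13 (d h01 g0 g1) (d h03 g0 g3) (by ring)
  have e4 : |c4 * (x0 + x1 + x2 + x3) + c3| ≤ 2 * (2 * (2 * Y / ℓ) / ℓ) / ℓ :=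
    dd_step hℓ h23 e2 e3 (by ring)
  exact ⟨e4.trans_eq (by field_simp; ring), e2.trans_eq (by field_simp; ring)⟩

lemma four_point {β L ℓ X η f : ℝ} {s0 s1 s2 p0 p1 p2 : ℤ} (x : Fin 4 → ℝ) (hβ : 0 < β)
    (hβL : β * L ≤ 1 / 2) (hℓ : 1 ≤ ℓ) (hf0 : 0 < f) (hf2 : f ≤ 2) (hη : 0 ≤ η)
    (hx0 : ∀ i, 0 ≤ x i) (hxL : ∀ i, x i ≤ L) (hsep : ∀ i j, i ≠ j → ℓ ≤ |x i - x j|)
    (hS : ∀ i, |s2 * x i ^ 2 + s1 * x i + s0| ≤ X)
    (hP : ∀ i, |(p2 * x i ^ 2 + p1 * x i + p0) -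
      f * Real.exp (β * x i) * (s2 * x i ^ 2 + s1 * x i + s0)| ≤ f * η * X)
    (hcond : 9 * (X * β / ℓ) + 16 * (X * (η + (β * L) ^ 3) / (β * ℓ ^ 3)) < 1) :
    s2 = 0 ∧ p2 = 0 := by
  have hℓ0 : 0 < ℓ := by linarith
  have hX : 0 ≤ X := (abs_nonneg _).trans (hS 0)
  have hL0 : 0 ≤ L := (hx0 0).trans (hxL 0)
  have hℓL : ℓ ≤ L := by
    refine (hsep 0 1 (by decide)).trans ?_
    rw [abs_le]; constructor <;> linarith [hx0 0, hx0 1, hxL 0, hxL 1]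
  set Y := X * (η + (β * L) ^ 3) with hY
  have hY0 : 0 ≤ Y := by positivity
  have hG : ∀ i, |(s2 * β ^ 2 / 2) * x i ^ 4 + (s2 * β + s1 * β ^ 2 / 2) * x i ^ 3 +
      (s2 + s1 * β + s0 * β ^ 2 / 2 - p2 / f) * x i ^ 2 + (s1 + s0 * β - p1 / f) * x i +
      (s0 - p0 / f)| ≤ Y := by
    intro i
    have hu0 : 0 ≤ β * x i := mul_nonneg hβ.le (hx0 i)
    have hu1 : β * x i ≤ β * L := mul_le_mul_of_nonneg_left (hxL i) hβ.le
    have h1 := exp_taylor3 hu0 (by linarith)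
    have h2 : (β * x i) ^ 3 ≤ (β * L) ^ 3 := pow_le_pow_left₀ hu0 hu1 3
    set S : ℝ := s2 * x i ^ 2 + s1 * x i + s0 with hSdef
    set P : ℝ := p2 * x i ^ 2 + p1 * x i + p0 with hPdef
    have e : (s2 * β ^ 2 / 2) * x i ^ 4 + (s2 * β + s1 * β ^ 2 / 2) * x i ^ 3 +
        (s2 + s1 * β + s0 * β ^ 2 / 2 - p2 / f) * x i ^ 2 + (s1 + s0 * β - p1 / f) * x i +
        (s0 - p0 / f) = -((P - f * Real.exp (β * x i) * S) / f) -
          (Real.exp (β * x i) - (1 + β * x i + (β * x i) ^ 2 / 2)) * S := by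
      rw [hSdef, hPdef]; field_simp; ring
    rw [e]
    have h3 : |(P - f * Real.exp (β * x i) * S) / f| ≤ η * X := by
      rw [abs_div, abs_of_pos hf0, div_le_iff₀ hf0]
      linarith [hP i]
    have h4 : |(Real.exp (β * x i) - (1 + β * x i + (β * x i) ^ 2 / 2)) * S| ≤ (β * L) ^ 3 * X := by
      rw [abs_mul]
      exact mul_le_mul (h1.trans h2) (hS i) (abs_nonneg _) (by positivity)
    refine (abs_sub _ _).trans ?_
    rw [abs_neg]
    linarith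
  obtain ⟨e3, e2⟩ := quartic_dd hℓ0 (hsep 0 1 (by decide)) (hsep 0 2 (by decide))
    (hsep 0 3 (by decide)) (hsep 1 2 (by decide)) (hsep 1 3 (by decide)) (hsep 2 3 (by decide))
    (hG 0) (hG 1) (hG 2) (hG 3)
  have e1 : |(s2 : ℝ) * (x 0 + x 1) + s1| ≤ 2 * X / ℓ :=
    dd_step hℓ0 (hsep 0 1 (by decide)) (hS 0) (hS 1) (by ring)
  set A := X * β / ℓ with hA
  set B := Y / (β * ℓ ^ 3) with hB
  have hA0 : 0 ≤ A := by positivity
  have hB0 : 0 ≤ B := by positivity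
  have eA : 2 * X / ℓ * β = 2 * A := by rw [hA]; ring
  have eB : 8 * Y / ℓ ^ 3 = β * (8 * B) := by rw [hB]; field_simp
  have hs1 : |(s1 : ℝ)| * β ≤ 2 * A + |(s2 : ℝ)| := by
    have h1 : |(s1 : ℝ)| ≤ 2 * X / ℓ + |(s2 : ℝ)| * (2 * L) := by
      have h2 : (s1 : ℝ) = (s2 * (x 0 + x 1) + s1) - s2 * (x 0 + x 1) := by ring
      have h3 : |(s2 : ℝ) * (x 0 + x 1)| ≤ |(s2 : ℝ)| * (2 * L) := by
        rw [abs_mul, abs_of_nonneg (add_nonneg (hx0 0) (hx0 1))]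
        exact mul_le_mul_of_nonneg_left (by linarith [hxL 0, hxL 1]) (abs_nonneg _)
      calc |(s1 : ℝ)| = |(s2 * (x 0 + x 1) + s1) - s2 * (x 0 + x 1)| := by rw [← h2]
        _ ≤ _ := abs_sub _ _
        _ ≤ _ := add_le_add e1 h3
    have h4 := mul_le_mul_of_nonneg_right h1 hβ.le
    nlinarith [abs_nonneg (s2 : ℝ)]
  have hs2 : s2 = 0 := by
    have hsum : 0 ≤ x 0 + x 1 + x 2 + x 3 := by linarith [hx0 0, hx0 1, hx0 2, hx0 3]
    have h1 : (s2 * β ^ 2 / 2) * (x 0 + x 1 + x 2 + x 3) + (s2 * β + s1 * β ^ 2 / 2) =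
        β * (s2 * (1 + β * (x 0 + x 1 + x 2 + x 3) / 2) + s1 * β / 2) := by ring
    rw [h1, eB, abs_mul, abs_of_pos hβ] at e3
    have h2 := le_of_mul_le_mul_left e3 hβ
    have h3 : |(s2 : ℝ)| ≤ |(s2 : ℝ) * (1 + β * (x 0 + x 1 + x 2 + x 3) / 2)| := by
      have h4 : 0 ≤ β * (x 0 + x 1 + x 2 + x 3) / 2 := by positivity
      rw [abs_mul, abs_of_nonneg (show 0 ≤ 1 + β * (x 0 + x 1 + x 2 + x 3) / 2 by linarith)]
      nlinarith [abs_nonneg (s2 : ℝ)]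
    have h5 : |(s2 : ℝ) * (1 + β * (x 0 + x 1 + x 2 + x 3) / 2)| ≤ 8 * B + |(s1 : ℝ)| * β / 2 := by
      have h6 : (s2 : ℝ) * (1 + β * (x 0 + x 1 + x 2 + x 3) / 2) =
          (s2 * (1 + β * (x 0 + x 1 + x 2 + x 3) / 2) + s1 * β / 2) - s1 * β / 2 := by ring
      rw [h6]
      refine (abs_sub _ _).trans (add_le_add h2 (le_of_eq ?_))
      rw [abs_div, abs_mul, abs_of_pos hβ, abs_two]
    have h7 : |(s2 : ℝ)| < 1 := by linarith
    have h8 : |s2| < 1 := by exact_mod_cast h7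
    exact Int.abs_lt_one_iff.1 h8
  refine ⟨hs2, ?_⟩
  subst hs2
  simp only [Int.cast_zero, zero_mul, zero_div, zero_add, abs_zero, add_zero] at e2 e1 hs1 hS
  have hs0 : |(s0 : ℝ)| * β ^ 2 ≤ 3 / 2 * A := by
    have h1 : |(s0 : ℝ)| ≤ X + |(s1 : ℝ)| * L := by
      have h2 : (s0 : ℝ) = (s1 * x 0 + s0) - s1 * x 0 := by ring
      have h3 : |(s1 : ℝ) * x 0| ≤ |(s1 : ℝ)| * L := by
        rw [abs_mul, abs_of_nonneg (hx0 0)]
        exact mul_le_mul_of_nonneg_left (hxL 0) (abs_nonneg _)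
      calc |(s0 : ℝ)| = |(s1 * x 0 + s0) - s1 * x 0| := by rw [← h2]
        _ ≤ _ := abs_sub _ _
        _ ≤ _ := add_le_add (hS 0) h3
    have h4 : X * β ^ 2 ≤ A / 2 := by
      have h5 : β * ℓ ≤ 1 / 2 := (mul_le_mul_of_nonneg_left hℓL hβ.le).trans hβL
      have h6 : X * β ^ 2 = A * (β * ℓ) := by rw [hA]; field_simp
      rw [h6]; nlinarith
    have h7 : |(s1 : ℝ)| * L * β ^ 2 ≤ A := by
      have : |(s1 : ℝ)| * L * β ^ 2 = (|(s1 : ℝ)| * β) * (β * L) := by ring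
      rw [this]
      have h8 : 0 ≤ β * L := by positivity
      have h9 : 0 ≤ |(s1 : ℝ)| * β := by positivity
      nlinarith
    have h10 := mul_le_mul_of_nonneg_right h1 (sq_nonneg β)
    nlinarith
  have hB2 : 4 * Y / ℓ ^ 2 ≤ 2 * B := by
    have h5 : β * ℓ ≤ 1 / 2 := (mul_le_mul_of_nonneg_left hℓL hβ.le).trans hβL
    have h6 : 4 * Y / ℓ ^ 2 = 4 * B * (β * ℓ) := by rw [hB]; field_simp
    rw [h6]; nlinarith
  have hsum0 : 0 ≤ x 0 + x 1 + x 2 := by linarith [hx0 0, hx0 1, hx0 2]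
  have hsum1 : β * (x 0 + x 1 + x 2) ≤ 3 / 2 := by
    have : β * (x 0 + x 1 + x 2) ≤ β * (3 * L) :=
      mul_le_mul_of_nonneg_left (by linarith [hxL 0, hxL 1, hxL 2]) hβ.le
    linarith
  have h1 : |(s1 : ℝ) * β ^ 2 / 2 * (x 0 + x 1 + x 2)| ≤ 3 / 2 * A := by
    have : |(s1 : ℝ) * β ^ 2 / 2 * (x 0 + x 1 + x 2)| =
        (|(s1 : ℝ)| * β) * (β * (x 0 + x 1 + x 2)) / 2 := by
      rw [abs_mul, abs_div, abs_mul, abs_of_nonneg hsum0, abs_of_nonneg (sq_nonneg β), abs_two]; ring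
    rw [this]
    have h8 : 0 ≤ β * (x 0 + x 1 + x 2) := by positivity
    have h9 : 0 ≤ |(s1 : ℝ)| * β := by positivity
    nlinarith
  have h2 : |(s1 : ℝ) * β| ≤ 2 * A := by rw [abs_mul, abs_of_pos hβ]; exact hs1
  have h3 : |(s0 : ℝ) * β ^ 2 / 2| ≤ 3 / 4 * A := by
    rw [abs_div, abs_mul, abs_of_nonneg (sq_nonneg β), abs_two]; linarith
  have h4 : |(p2 : ℝ) / f| ≤ 2 * B + 17 / 4 * A := by
    have h5 := abs_le.1 (e2.trans hB2)
    have h6 := abs_le.1 h1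
    have h7 := abs_le.1 h2
    have h8 := abs_le.1 h3
    rw [abs_le]; constructor <;> linarith [h5.1, h5.2, h6.1, h6.2, h7.1, h7.2, h8.1, h8.2]
  rw [abs_div, abs_of_pos hf0, div_le_iff₀ hf0] at h4
  have h7 : |(p2 : ℝ)| < 1 := by nlinarith
  have h8 : |p2| < 1 := by exact_mod_cast h7
  exact Int.abs_lt_one_iff.1 h8

end Pool.Agent.MP_71ac24_nt

end

-- part MP_71ac24_nt.Local
section

/-!
An auxiliary quotient of integer quadratics following a slow exponential on a short interval, and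
the resulting bound for the number of fractions of small height close to the exponential.
-/

set_option autoImplicit false

open Finset

namespace Pool.Agent.MP_71ac24_nt

lemma exp_le_two {u : ℝ} (h0 : 0 ≤ u) (h1 : u ≤ 1 / 2) : Real.exp u ≤ 2 := by
  have h := (abs_le.1 (exp_taylor3 h0 (by linarith))).2
  have h2 : u ^ 2 ≤ (1 / 2) ^ 2 := pow_le_pow_left₀ h0 h1 2
  have h3 : u ^ 3 ≤ (1 / 2) ^ 3 := pow_le_pow_left₀ h0 h1 3
  linarith

lemma pade_exists {β L Q T f : ℝ} (hβ : 0 < β) (hL : 1 ≤ L) (hQ : 1 ≤ Q) (hT : 0 < T)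
    (hA : 10 ^ 12 * β * Q ^ 6 * L ^ 7 < T ^ 2) (hB : 10 ^ 12 * β ^ 4 * Q ^ 6 * L ^ 10 < T) :
    ∃ v : Fin 6 → ℤ, v ≠ 0 ∧ |(v 0 : ℝ)| ≤ T / (100 * Q) ∧ |(v 1 : ℝ)| ≤ T / (100 * Q * L) ∧
      |(v 1 : ℝ)| ≤ 1 / (100 * β ^ 3 * Q * L ^ 4) ∧
      |β ^ 2 / 6 * v 0 + β / 2 * v 1 + v 2| ≤ 1 / (100 * β * Q * L ^ 3) ∧
      |-f * v 0 + v 3| ≤ 1 / (100 * Q) ∧ |-f * β * v 0 + -f * v 1 + v 4| ≤ 1 / (100 * Q * L) ∧
      |-f * β ^ 2 / 2 * v 0 + -f * β * v 1 + -f * v 2 + v 5| ≤ 1 / (100 * Q * L ^ 2) := by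
  set m := min (T / (100 * Q * L)) (1 / (100 * β ^ 3 * Q * L ^ 4)) with hm
  have hL0 : 0 < L := by linarith
  have hQ0 : 0 < Q := by linarith
  have hm0 : 0 < m := lt_min (by positivity) (by positivity)
  obtain ⟨z, hz, h⟩ := linear_forms
    !![1, 0, 0, 0, 0, 0; 0, 1, 0, 0, 0, 0; β ^ 2 / 6, β / 2, 1, 0, 0, 0; -f, 0, 0, 1, 0, 0;
      -f * β, -f, 0, 0, 1, 0; -f * β ^ 2 / 2, -f * β, -f, 0, 0, 1]
    (by
      rw [Matrix.det_of_isLowerTriangular]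
      · simp [Fin.prod_univ_six]
      · intro i j hij
        fin_cases i <;> fin_cases j <;> first | rfl | exact absurd hij (by decide))
    ![T / (100 * Q), m, 1 / (100 * β * Q * L ^ 3), 1 / (100 * Q), 1 / (100 * Q * L),
      1 / (100 * Q * L ^ 2)]
    (by intro i; fin_cases i <;> simp <;> positivity)
    (by
      rw [Fin.prod_univ_six]
      simp only [Matrix.cons_val]
      rcases min_choice (T / (100 * Q * L)) (1 / (100 * β ^ 3 * Q * L ^ 4)) with h | h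
      · rw [hm, h]
        calc (1 : ℝ) < T ^ 2 / (10 ^ 12 * β * Q ^ 6 * L ^ 7) := by
              rw [one_lt_div (by positivity)]; exact hA
          _ = _ := by field_simp; ring
      · rw [hm, h]
        calc (1 : ℝ) < T / (10 ^ 12 * β ^ 4 * Q ^ 6 * L ^ 10) := by
              rw [one_lt_div (by positivity)]; exact hB
          _ = _ := by field_simp; ring)
  have h0 := h 0
  have h1 := h 1
  have h2 := h 2
  have h3 := h 3
  have h4 := h 4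
  have h5 := h 5
  simp only [Fin.sum_univ_six, Matrix.of_apply, Matrix.cons_val', Matrix.cons_val,
    Matrix.cons_val_fin_one, zero_mul, one_mul, add_zero, zero_add] at h0 h1 h2 h3 h4 h5
  exact ⟨z, hz, h0, h1.trans (min_le_left _ _), h1.trans (min_le_right _ _), h2, h3, h4, h5⟩

lemma pade {β L Q T f : ℝ} (hβ : 0 < β) (hL : 1 ≤ L) (hQ : 1 ≤ Q) (hβL : β * L ≤ 1 / 2)
    (hf0 : 0 < f) (hf2 : f ≤ 2) (hT1 : 1 ≤ β * T * L) (hT4 : T * (β * L) ^ 4 ≤ 1)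
    (hA : 10 ^ 12 * β * Q ^ 6 * L ^ 7 < T ^ 2) (hB : 10 ^ 12 * β ^ 4 * Q ^ 6 * L ^ 10 < T) :
    ∃ v : Fin 6 → ℤ, v ≠ 0 ∧ (∀ i, |(v i : ℝ)| ≤ T) ∧ ∀ x : ℝ, 0 ≤ x → x ≤ L →
      |v 2 * x ^ 2 + v 1 * x + v 0| ≤ T / (25 * Q) ∧
      |(v 5 * x ^ 2 + v 4 * x + v 3) - f * Real.exp (β * x) * (v 2 * x ^ 2 + v 1 * x + v 0)|
        ≤ 4 / (25 * Q) := by
  have hL0 : 0 < L := by linarith
  have hQ0 : 0 < Q := by linarith
  have hT2 : 2 ≤ T := by
    by_contra h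
    have : β * T * L = T * (β * L) := by ring
    have h2 : 0 < β * L := by positivity
    nlinarith
  have hT : 0 < T := by linarith
  obtain ⟨v, hv, h0, h1, h1', h2, h3, h4, h5⟩ := pade_exists (f := f) hβ hL hQ hT hA hB
  set u := β * L with hu
  have hu0 : 0 < u := by positivity
  set σ := T / (100 * Q) with hσ
  set κ := 1 / (100 * Q) with hκ
  have hσ0 : 0 < σ := by positivity
  have hκ0 : 0 < κ := by positivity
  have hσκ : σ = T * κ := by rw [hσ, hκ]; ring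
  -- normalised sizes
  set t0 := |(v 0 : ℝ)| with ht0
  set t1 := |(v 1 : ℝ)| * L with ht1
  set t2 := |(v 2 : ℝ)| * L ^ 2 with ht2
  set y2 := β ^ 2 / 6 * v 0 + β / 2 * v 1 + v 2 with hy2
  have a1 : t1 ≤ σ := by
    rw [ht1, ← le_div_iff₀ hL0]; exact h1.trans_eq (by rw [hσ]; field_simp)
  have a1' : t1 * u ^ 3 ≤ κ := by
    have : t1 * u ^ 3 = |(v 1 : ℝ)| * (β ^ 3 * L ^ 4) := by rw [ht1, hu]; ring
    rw [this, ← le_div_iff₀ (by positivity)]; exact h1'.trans_eq (by rw [hκ]; field_simp)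
  have a2 : |y2| * L ^ 2 * u ≤ κ := by
    have : |y2| * L ^ 2 * u = |y2| * (β * L ^ 3) := by rw [hu]; ring
    rw [this, ← le_div_iff₀ (by positivity)]; exact h2.trans_eq (by rw [hκ]; field_simp)
  have a2' : |y2| * L ^ 2 ≤ σ := by
    have e : T * u = β * T * L := by rw [hu]; ring
    have h6 : 0 ≤ |y2| * L ^ 2 := by positivity
    calc |y2| * L ^ 2 ≤ |y2| * L ^ 2 * (T * u) := le_mul_of_one_le_right h6 (by rw [e]; exact hT1)
      _ = T * (|y2| * L ^ 2 * u) := by ring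
      _ ≤ T * κ := mul_le_mul_of_nonneg_left a2 hT.le
      _ = σ := hσκ.symm
  have t00 : 0 ≤ t0 := abs_nonneg _
  have t10 : 0 ≤ t1 := by positivity
  have t20 : 0 ≤ t2 := by positivity
  have y20 : 0 ≤ |y2| * L ^ 2 := by positivity
  have b2 : t2 ≤ |y2| * L ^ 2 + u / 2 * t1 + u ^ 2 / 6 * t0 := by
    have e : (v 2 : ℝ) = y2 - β / 2 * v 1 - β ^ 2 / 6 * v 0 := by rw [hy2]; ring
    have h6 : |(v 2 : ℝ)| ≤ |y2| + β / 2 * |(v 1 : ℝ)| + β ^ 2 / 6 * |(v 0 : ℝ)| := by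
      rw [e]
      refine (abs_sub _ _).trans (add_le_add ((abs_sub _ _).trans (add_le_add le_rfl ?_)) ?_)
      · rw [abs_mul, abs_of_pos (by positivity : 0 < β / 2)]
      · rw [abs_mul, abs_of_pos (by positivity : 0 < β ^ 2 / 6)]
    have h7 := mul_le_mul_of_nonneg_right h6 (sq_nonneg L)
    refine h7.trans_eq ?_
    rw [ht1, ht0, hu]; ring
  have hu2 : u ^ 2 ≤ 1 / 4 := (pow_le_pow_left₀ hu0.le hβL 2).trans_eq (by norm_num)
  have c2 : t2 ≤ 2 * σ := by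
    have p1 : u * t1 ≤ 1 / 2 * σ := mul_le_mul hβL a1 t10 (by norm_num)
    have p2 : u ^ 2 * t0 ≤ 1 / 4 * σ := mul_le_mul hu2 h0 t00 (by norm_num)
    linarith only [p1, p2, b2, a2', hσ0]
  have hσu : σ * u ^ 4 ≤ κ := by
    rw [hσκ]; linarith only [mul_le_mul_of_nonneg_left hT4 hκ0.le]
  have c2' : t2 * u ^ 2 ≤ 2 * κ := by
    have h6 := mul_le_mul_of_nonneg_right b2 (sq_nonneg u)
    have h7 : |y2| * L ^ 2 * u ^ 2 ≤ κ / 2 := by
      linarith only [mul_le_mul a2 hβL hu0.le hκ0.le]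
    have h8 : t0 * u ^ 4 ≤ κ := (mul_le_mul_of_nonneg_right h0 (by positivity)).trans hσu
    linarith only [h6, h7, h8, a1', hκ0]
  have hβ2 : β ≤ 1 / 2 := (le_mul_of_one_le_right hβ.le hL).trans hβL
  have hfβ : f * β ≤ 2 := by linarith only [mul_le_mul hf2 hβ2 hβ.le zero_le_two]
  have hfβ2 : f * β ^ 2 / 2 ≤ 2 := by
    linarith only [mul_le_mul hf2 (pow_le_pow_left₀ hβ.le hβ2 2) (sq_nonneg β) zero_le_two]
  have hσT : σ ≤ T / 100 := by
    rw [hσ]; exact div_le_div_of_nonneg_left hT.le (by norm_num) (by linarith)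
  have hκ1 : κ ≤ 1 / 100 := by
    rw [hκ]; exact div_le_div_of_nonneg_left (by norm_num) (by norm_num) (by linarith)
  have d1 : |(v 1 : ℝ)| ≤ σ := (le_mul_of_one_le_right (abs_nonneg _) hL).trans a1
  have d2 : |(v 2 : ℝ)| ≤ 2 * σ := (le_mul_of_one_le_right (abs_nonneg _) (one_le_pow₀ hL)).trans c2
  have h4' : |-f * β * v 0 + -f * v 1 + v 4| * L ≤ κ := by
    rw [← le_div_iff₀ hL0]; exact h4.trans_eq (by rw [hκ]; field_simp)
  have h5' : |-f * β ^ 2 / 2 * v 0 + -f * β * v 1 + -f * v 2 + v 5| * L ^ 2 ≤ κ := by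
    rw [← le_div_iff₀ (by positivity)]; exact h5.trans_eq (by rw [hκ]; field_simp)
  have key : ∀ {c w W : ℝ}, 0 ≤ c → c ≤ 2 → |w| ≤ W → |c * w| ≤ 2 * W := by
    intro c w W h1 h2 h3
    rw [abs_mul, abs_of_nonneg h1]
    exact mul_le_mul h2 h3 (abs_nonneg _) (by norm_num)
  refine ⟨v, hv, fun i => ?_, fun x hx0 hxL => ?_⟩
  · have e0 := abs_le.1 (key hf0.le hf2 h0)
    have e1 := abs_le.1 (key hf0.le hf2 d1)
    have e2 := abs_le.1 (key hf0.le hf2 d2)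
    have e3 := abs_le.1 (key (c := f * β) (by positivity) hfβ h0)
    have e4 := abs_le.1 (key (c := f * β) (by positivity) hfβ d1)
    have e5 := abs_le.1 (key (c := f * β ^ 2 / 2) (by positivity) hfβ2 h0)
    have g3 := abs_le.1 h3
    have g4 := abs_le.1 ((le_mul_of_one_le_right (abs_nonneg _) hL).trans h4')
    have g5 := abs_le.1 ((le_mul_of_one_le_right (abs_nonneg _) (one_le_pow₀ hL)).trans h5')
    fin_cases i
    · exact h0.trans (by linarith only [hσT, hT])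
    · exact d1.trans (by linarith only [hσT, hT])
    · exact d2.trans (by linarith only [hσT, hT])
    · show |(v 3 : ℝ)| ≤ T
      rw [abs_le]; constructor <;> linarith only [e0.1, e0.2, g3.1, g3.2, hσT, hκ1, hT2]
    · show |(v 4 : ℝ)| ≤ T
      rw [abs_le]; constructor <;> linarith only [e1.1, e1.2, e3.1, e3.2, g4.1, g4.2, hσT, hκ1, hT2]
    · show |(v 5 : ℝ)| ≤ T
      rw [abs_le]
      constructor <;> linarith only [e2.1, e2.2, e4.1, e4.2, e5.1, e5.2, g5.1, g5.2, hσT, hκ1, hT2]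
  have pw : ∀ (w : ℝ) (n : ℕ), |w * x ^ n| ≤ |w| * L ^ n := by
    intro w n
    rw [abs_mul, abs_of_nonneg (pow_nonneg hx0 n)]
    exact mul_le_mul_of_nonneg_left (pow_le_pow_left₀ hx0 hxL n) (abs_nonneg _)
  have hS : |v 2 * x ^ 2 + v 1 * x + v 0| ≤ 4 * σ := by
    have e1 := pw (v 1) 1
    have e2 := pw (v 2) 2
    rw [pow_one, pow_one] at e1
    calc _ ≤ |v 2 * x ^ 2| + |v 1 * x| + |(v 0 : ℝ)| := abs_add_three _ _ _
      _ ≤ 2 * σ + σ + σ := add_le_add (add_le_add (e2.trans c2) (e1.trans a1)) h0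
      _ = _ := by ring
  refine ⟨hS.trans_eq (by rw [hσ]; field_simp; ring), ?_⟩
  have hw0 : 0 ≤ β * x := by positivity
  have hw1 : β * x ≤ u := mul_le_mul_of_nonneg_left hxL hβ.le
  have hρ := (exp_taylor4 hw0 (by linarith only [hw1, hβL])).trans (pow_le_pow_left₀ hw0 hw1 4)
  set S : ℝ := v 2 * x ^ 2 + v 1 * x + v 0 with hSdef
  set ρ := Real.exp (β * x) - (1 + β * x + (β * x) ^ 2 / 2 + (β * x) ^ 3 / 6) with hρdef
  have e : (v 5 * x ^ 2 + v 4 * x + v 3) - f * Real.exp (β * x) * S =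
      (-f * v 0 + v 3) + (-f * β * v 0 + -f * v 1 + v 4) * x ^ 1 +
        (-f * β ^ 2 / 2 * v 0 + -f * β * v 1 + -f * v 2 + v 5) * x ^ 2 -
        f * (β * y2 * x ^ 3 + (β ^ 2 / 2 * v 2) * x ^ 4 + (β ^ 3 / 6 * v 1) * x ^ 4 +
          (β ^ 3 / 6 * v 2) * x ^ 5 + ρ * S) := by
    rw [hρdef, hSdef, hy2]; ring
  have k1 := abs_le.1 ((pw (-f * β * v 0 + -f * v 1 + v 4) 1).trans
    (show _ ≤ κ by rw [pow_one]; exact h4'))
  have k2 := abs_le.1 ((pw _ 2).trans h5')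
  have k0 := abs_le.1 h3
  have k3 : |β * y2 * x ^ 3| ≤ κ := by
    refine (pw _ 3).trans (le_of_eq_of_le ?_ a2)
    rw [abs_mul, abs_of_pos hβ, hu]; ring
  have k4 : |(β ^ 2 / 2 * v 2) * x ^ 4| ≤ κ := by
    refine (pw _ 4).trans ?_
    have : |β ^ 2 / 2 * v 2| * L ^ 4 = t2 * u ^ 2 / 2 := by
      rw [abs_mul, abs_of_pos (by positivity : 0 < β ^ 2 / 2), ht2, hu]; ring
    rw [this]; linarith only [c2']
  have k5 : |(β ^ 3 / 6 * v 1) * x ^ 4| ≤ κ / 6 := by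
    refine (pw _ 4).trans ?_
    have : |β ^ 3 / 6 * v 1| * L ^ 4 = t1 * u ^ 3 / 6 := by
      rw [abs_mul, abs_of_pos (by positivity : 0 < β ^ 3 / 6), ht1, hu]; ring
    rw [this]; linarith only [a1']
  have k6 : |(β ^ 3 / 6 * v 2) * x ^ 5| ≤ κ / 6 := by
    refine (pw _ 5).trans ?_
    have : |β ^ 3 / 6 * v 2| * L ^ 5 = t2 * u ^ 2 * u / 6 := by
      rw [abs_mul, abs_of_pos (by positivity : 0 < β ^ 3 / 6), ht2, hu]; ring
    rw [this]
    linarith only [mul_le_mul c2' hβL hu0.le (by positivity)]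
  have k7 : |ρ * S| ≤ 4 * κ := by
    rw [abs_mul]
    calc |ρ| * |S| ≤ u ^ 4 * (4 * σ) := mul_le_mul hρ hS (abs_nonneg _) (by positivity)
      _ ≤ _ := by linarith only [hσu]
  have k8 : |β * y2 * x ^ 3 + (β ^ 2 / 2 * v 2) * x ^ 4 + (β ^ 3 / 6 * v 1) * x ^ 4 +
      (β ^ 3 / 6 * v 2) * x ^ 5 + ρ * S| ≤ 13 / 2 * κ := by
    have j3 := abs_le.1 k3
    have j4 := abs_le.1 k4
    have j5 := abs_le.1 k5
    have j6 := abs_le.1 k6
    have j7 := abs_le.1 k7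
    rw [abs_le]
    constructor <;> linarith only [j3.1, j3.2, j4.1, j4.2, j5.1, j5.2, j6.1, j6.2, j7.1, j7.2, hκ0]
  have k9 := abs_le.1 (key hf0.le hf2 k8)
  have e4 : 4 / (25 * Q) = 16 * κ := by rw [hκ]; field_simp; ring
  rw [e, e4, abs_le]
  constructor <;> linarith only [k0.1, k0.2, k1.1, k1.2, k2.1, k2.2, k9.1, k9.2]

lemma local_bound {β L Q T f : ℝ} (J : Finset ℤ) (a q : ℤ → ℤ) (τ : ℕ) (hβ : 0 < β) (hL : 1 ≤ L)
    (hQ : 1 ≤ Q) (hf0 : 0 < f) (hf2 : f ≤ 2) (H1 : β * Q * L ≤ 1 / 100)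
    (H2 : Q * L ≤ β * T / 1000) (H3 : β ^ 2 * Q * L ^ 4 ≤ 1 / 100) (hT4 : T * (β * L) ^ 4 ≤ 1)
    (hA : 10 ^ 12 * β * Q ^ 6 * L ^ 7 < T ^ 2) (hB : 10 ^ 12 * β ^ 4 * Q ^ 6 * L ^ 10 < T)
    (hJL : ∀ x ∈ J, 0 ≤ x ∧ (x : ℝ) ≤ L) (hc : ∀ x ∈ J, IsCoprime (a x) (q x))
    (hq : ∀ x ∈ J, 0 < q x) (hqQ : ∀ x ∈ J, (q x : ℝ) ≤ 2 * Q)
    (hnear : ∀ x ∈ J, |a x - f * Real.exp (β * x) * q x| ≤ 2 / T * (f * Real.exp (β * x) * q x))
    (hinj : ∀ x ∈ J, ∀ y ∈ J, a x * q y = a y * q x → x = y)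
    (hτ : ∀ n : ℕ, (n : ℝ) ≤ 8 * T ^ 6 → #n.divisors ≤ τ) : #J ≤ τ * (3 * τ + 3) + 3 := by
  by_contra hJ
  push Not at hJ
  have hL0 : 0 < L := by linarith
  have hQ0 : 0 < Q := by linarith
  have hβL : β * L ≤ 1 / 2 := by
    have : 0 < β * L := by positivity
    nlinarith
  have hβT : 1000 ≤ β * T := by nlinarith
  have hT : 0 < T := by
    by_contra h
    nlinarith
  obtain ⟨v, hv, hvT, hvx⟩ := pade hβ hL hQ hβL hf0 hf2 (by nlinarith) hT4 hA hB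
  have hexp : ∀ x ∈ J, Real.exp (β * x) ≤ 2 := by
    intro x hx
    have h0 : (0 : ℝ) ≤ x := by exact_mod_cast (hJL x hx).1
    exact exp_le_two (by positivity)
      ((mul_le_mul_of_nonneg_left (hJL x hx).2 hβ.le).trans hβL)
  have he : ∀ x ∈ J, q x * (v 5 * x ^ 2 + v 4 * x + v 3) = a x * (v 2 * x ^ 2 + v 1 * x + v 0) := by
    intro x hx
    have h0 : (0 : ℝ) ≤ x := by exact_mod_cast (hJL x hx).1
    obtain ⟨h1, h2⟩ := hvx x h0 (hJL x hx).2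
    have h3 := hnear x hx
    have h4 : (0 : ℝ) < q x := by exact_mod_cast hq x hx
    have h5 := hqQ x hx
    have h6 := hexp x hx
    have h7 := Real.exp_pos (β * x)
    set E := f * Real.exp (β * x) with hE
    have hE4 : E ≤ 4 := by nlinarith
    have hE0 : 0 < E := by positivity
    set S : ℝ := v 2 * x ^ 2 + v 1 * x + v 0 with hS
    set P : ℝ := v 5 * x ^ 2 + v 4 * x + v 3 with hP
    have e : q x * P - a x * S = q x * (P - E * S) - (a x - E * q x) * S := by ring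
    have b1 : |q x * (P - E * S)| ≤ 8 / 25 := by
      rw [abs_mul, abs_of_pos h4]
      calc q x * |P - E * S| ≤ 2 * Q * (4 / (25 * Q)) :=
            mul_le_mul h5 h2 (abs_nonneg _) (by positivity)
        _ = _ := by field_simp; ring
    have b2 : |(a x - E * q x) * S| ≤ 16 / 25 := by
      rw [abs_mul]
      have : 2 / T * (E * q x) ≤ 2 / T * (4 * (2 * Q)) :=
        mul_le_mul_of_nonneg_left (mul_le_mul hE4 h5 h4.le (by norm_num)) (by positivity)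
      calc |a x - E * q x| * |S| ≤ 2 / T * (4 * (2 * Q)) * (T / (25 * Q)) :=
            mul_le_mul (h3.trans this) h1 (abs_nonneg _) (by positivity)
        _ = _ := by field_simp; ring
    have b3 : |q x * P - a x * S| < 1 := by
      rw [e]; exact (abs_sub _ _).trans_lt (by linarith)
    have b4 : |q x * (v 5 * x ^ 2 + v 4 * x + v 3) - a x * (v 2 * x ^ 2 + v 1 * x + v 0)| < 1 := by
      rw [hS, hP] at b3; exact_mod_cast b3
    exact sub_eq_zero.1 (Int.abs_lt_one_iff.1 b4)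
  obtain ⟨s0, s1, s2, p0, p1, p2, hne, ℓ, hℓ, J', hJ', hlt, hpt, hgap⟩ :=
    curve_cases J a q L v hv ⌊T⌋ (fun i => Int.le_floor.2 (by exact_mod_cast hvT i)) hJL hc hq he
      hinj τ (fun n hn => hτ n (by
        have h1 : (n : ℝ) ≤ 8 * (⌊T⌋ : ℝ) ^ 6 := by exact_mod_cast hn
        have h2 : (0 : ℝ) ≤ ⌊T⌋ := by exact_mod_cast Int.floor_nonneg.2 hT.le
        have h3 : (⌊T⌋ : ℝ) ^ 6 ≤ T ^ 6 := pow_le_pow_left₀ h2 (Int.floor_le T) 6
        linarith)) hJ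
  set y := J'.orderEmbOfCardLe (show 4 ≤ #J' from hlt) with hy
  have hyJ : ∀ i, y i ∈ J' := fun i => Finset.orderEmbOfCardLe_mem _ _ i
  have hℓ0 : 0 < ℓ := by linarith
  have hSX : ∀ i, |s2 * (y i : ℝ) ^ 2 + s1 * y i + s0| ≤ 2 * Q * ℓ * L := by
    intro i
    have h1 := (hpt _ (hyJ i)).2
    push_cast at h1
    refine h1.trans ?_
    have := hqQ _ (hJ' (hyJ i))
    gcongr
  have := four_point (β := β) (L := L) (ℓ := ℓ) (X := 2 * Q * ℓ * L) (η := 4 / T) (f := f)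
    (s0 := s0) (s1 := s1) (s2 := s2) (p0 := p0) (p1 := p1) (p2 := p2) (fun i => (y i : ℝ)) hβ hβL hℓ
    hf0 hf2 (by positivity) (fun i => by exact_mod_cast (hJL _ (hJ' (hyJ i))).1)
    (fun i => (hJL _ (hJ' (hyJ i))).2)
    (fun i j hij => hgap _ (hyJ i) _ (hyJ j) fun h => hij (y.injective h)) hSX (fun i => ?_) ?_
  · rcases hne with h | h
    · exact h this.1
    · exact h this.2
  · have hx := hJ' (hyJ i)
    have h1 := (hpt _ (hyJ i)).1
    have h2 := hSX i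
    have h3 := hnear _ hx
    have h4 : (0 : ℝ) < q (y i) := by exact_mod_cast hq _ hx
    have h6 := hexp _ hx
    set x := y i
    set S : ℝ := s2 * (x : ℝ) ^ 2 + s1 * x + s0 with hS
    set P : ℝ := p2 * (x : ℝ) ^ 2 + p1 * x + p0 with hP
    have h1' : q x * P = a x * S := by rw [hS, hP]; exact_mod_cast h1
    have e : q x * (P - f * Real.exp (β * x) * S) = (a x - f * Real.exp (β * x) * q x) * S := by
      linear_combination h1'
    have h7 : q x * |P - f * Real.exp (β * x) * S| ≤ q x * (f * (4 / T) * (2 * Q * ℓ * L)) := by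
      have h8 : 2 / T * (f * Real.exp (β * x) * q x) ≤ 2 / T * (f * 2 * q x) := by gcongr
      calc q x * |P - f * Real.exp (β * x) * S| = |a x - f * Real.exp (β * x) * q x| * |S| := by
            rw [← abs_mul, ← e, abs_mul, abs_of_pos h4]
        _ ≤ 2 / T * (f * 2 * q x) * (2 * Q * ℓ * L) :=
            mul_le_mul (h3.trans h8) h2 (abs_nonneg _) (by positivity)
        _ = _ := by ring
    exact le_of_mul_le_mul_left h7 h4
  · have e1 : 2 * Q * ℓ * L * β / ℓ = 2 * (β * Q * L) := by field_simp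
    have e2 : 2 * Q * ℓ * L * (4 / T + (β * L) ^ 3) / (β * ℓ ^ 3) =
        (8 * (Q * L / (β * T)) + 2 * (β ^ 2 * Q * L ^ 4)) / ℓ ^ 2 := by field_simp; ring
    have h1 : Q * L / (β * T) ≤ 1 / 1000 := by
      rw [div_le_iff₀ (by positivity)]; linarith
    have h2 : (8 * (Q * L / (β * T)) + 2 * (β ^ 2 * Q * L ^ 4)) / ℓ ^ 2 ≤
        8 * (Q * L / (β * T)) + 2 * (β ^ 2 * Q * L ^ 4) :=
      div_le_self (by positivity) (by nlinarith)
    rw [e1, e2]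
    linarith

end Pool.Agent.MP_71ac24_nt

end

-- part MP_71ac24_nt.Count
section

/-!
Pairs of integers whose logarithmic ratio is close to the lattice `ℤ / α`: reduction to coprime
pairs, the squaring step and the trivial bound.
-/

set_option autoImplicit false

open Finset

namespace Pool.Agent.MP_71ac24_nt

def Near (α δ : ℝ) (p : ℕ × ℕ) : Prop :=
  ∃ k : ℤ, |α * Real.log p.1 - α * Real.log p.2 - k| ≤ δ

def box (Y : ℕ) : Finset (ℕ × ℕ) := Icc 1 Y ×ˢ Icc 1 Y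

lemma mem_box {Y : ℕ} {p : ℕ × ℕ} : p ∈ box Y ↔ (1 ≤ p.1 ∧ p.1 ≤ Y) ∧ 1 ≤ p.2 ∧ p.2 ≤ Y := by
  simp [box]

open Classical in
noncomputable def WW (α δ : ℝ) (Y : ℕ) : ℕ := #{p ∈ box Y | Near α δ p}

open Classical in
noncomputable def Prim (α δ : ℝ) (Y : ℕ) : Finset (ℕ × ℕ) :=
  {p ∈ box Y | p.1.Coprime p.2 ∧ Near α δ p}

noncomputable def Phi (α δ : ℝ) (Y : ℕ) : ℝ := ∑ p ∈ Prim α δ Y, 1 / ((max p.1 p.2 : ℕ) : ℝ)

lemma mem_Prim {α δ : ℝ} {Y : ℕ} {p : ℕ × ℕ} :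
    p ∈ Prim α δ Y ↔ p ∈ box Y ∧ p.1.Coprime p.2 ∧ Near α δ p := by
  classical
  simp [Prim]

lemma near_mul {α δ : ℝ} {a q g : ℕ} (ha : 1 ≤ a) (hq : 1 ≤ q) (hg : 1 ≤ g) :
    Near α δ (g * a, g * q) ↔ Near α δ (a, q) := by
  have h1 : (a : ℝ) ≠ 0 := by exact_mod_cast (by omega : a ≠ 0)
  have h2 : (q : ℝ) ≠ 0 := by exact_mod_cast (by omega : q ≠ 0)
  have h3 : (g : ℝ) ≠ 0 := by exact_mod_cast (by omega : g ≠ 0)
  simp only [Near, Nat.cast_mul, Real.log_mul h3 h1, Real.log_mul h3 h2]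
  refine exists_congr fun k => ?_
  rw [show α * (Real.log g + Real.log a) - α * (Real.log g + Real.log q) - k =
    α * Real.log a - α * Real.log q - k by ring]

lemma WW_eq (α δ : ℝ) (Y : ℕ) : WW α δ Y = ∑ p ∈ Prim α δ Y, Y / max p.1 p.2 := by
  classical
  have hmaps : ∀ p ∈ {p ∈ box Y | Near α δ p},
      (p.1 / p.1.gcd p.2, p.2 / p.1.gcd p.2) ∈ Prim α δ Y := by
    rintro ⟨n, m⟩ hp
    obtain ⟨hb, hn⟩ := Finset.mem_filter.1 hp
    rw [mem_box] at hb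
    dsimp only at hb ⊢
    have hg : 0 < n.gcd m := Nat.gcd_pos_of_pos_left _ hb.1.1
    have h1 : 1 ≤ n / n.gcd m := Nat.div_pos (Nat.gcd_le_left _ hb.1.1) hg
    have h2 : 1 ≤ m / n.gcd m := Nat.div_pos (Nat.gcd_le_right _ hb.2.1) hg
    refine mem_Prim.2 ⟨mem_box.2 ⟨⟨h1, (Nat.div_le_self _ _).trans hb.1.2⟩, h2,
      (Nat.div_le_self _ _).trans hb.2.2⟩, Nat.coprime_div_gcd_div_gcd hg, ?_⟩
    rw [← near_mul h1 h2 hg, Nat.mul_div_cancel' (Nat.gcd_dvd_left _ _),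
      Nat.mul_div_cancel' (Nat.gcd_dvd_right _ _)]
    exact hn
  rw [WW, Finset.card_eq_sum_card_fiberwise hmaps]
  refine Finset.sum_congr rfl ?_
  rintro ⟨a, q⟩ hp
  obtain ⟨hb, hc, hn⟩ := mem_Prim.1 hp
  rw [mem_box] at hb
  dsimp only at hb hc ⊢
  have hmax : 0 < max a q := lt_max_of_lt_left hb.1.1
  symm
  conv_lhs => rw [← Nat.add_sub_cancel (n := Y / max a q) (m := 1), ← Nat.card_Icc]
  refine Finset.card_bij (fun g _ => (g * a, g * q)) (fun g hg => ?_) (fun g _ g' _ h => ?_)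
    (fun p hp => ?_)
  · obtain ⟨hg1, hg2⟩ := Finset.mem_Icc.1 hg
    have h1 : g * max a q ≤ Y := (Nat.le_div_iff_mul_le hmax).1 hg2
    refine Finset.mem_filter.2 ⟨Finset.mem_filter.2 ⟨mem_box.2 ⟨⟨Nat.mul_pos hg1 hb.1.1,
      (Nat.mul_le_mul_left g (le_max_left a q)).trans h1⟩, Nat.mul_pos hg1 hb.2.1,
      (Nat.mul_le_mul_left g (le_max_right a q)).trans h1⟩, (near_mul hb.1.1 hb.2.1 hg1).2 hn⟩, ?_⟩
    dsimp only
    rw [Nat.gcd_mul_left, hc.gcd_eq_one, mul_one, Nat.mul_div_cancel_left _ hg1,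
      Nat.mul_div_cancel_left _ hg1]
  · exact Nat.eq_of_mul_eq_mul_right hb.1.1 (congrArg Prod.fst h)
  · obtain ⟨n, m⟩ := p
    obtain ⟨hp1, hp2⟩ := Finset.mem_filter.1 hp
    have hb' := mem_box.1 (Finset.mem_filter.1 hp1).1
    dsimp only at hb' hp2
    have e1 : n.gcd m * a = n := by
      rw [← (Prod.mk.inj hp2).1, Nat.mul_div_cancel' (Nat.gcd_dvd_left _ _)]
    have e2 : n.gcd m * q = m := by
      rw [← (Prod.mk.inj hp2).2, Nat.mul_div_cancel' (Nat.gcd_dvd_right _ _)]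
    refine ⟨n.gcd m, Finset.mem_Icc.2 ⟨Nat.gcd_pos_of_pos_left _ hb'.1.1, ?_⟩, by rw [e1, e2]⟩
    rw [Nat.le_div_iff_mul_le hmax]
    rcases le_total a q with h | h
    · rw [max_eq_right h, e2]; exact hb'.2.2
    · rw [max_eq_left h, e1]; exact hb'.1.2

lemma WW_le (α δ : ℝ) (Y : ℕ) : (WW α δ Y : ℝ) ≤ Y * Phi α δ Y := by
  rw [WW_eq, Phi, Finset.mul_sum, Nat.cast_sum]
  refine Finset.sum_le_sum fun p _ => ?_
  rw [mul_one_div]
  exact Nat.cast_div_le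

lemma le_WW (α δ : ℝ) (Y : ℕ) : Y * Phi α δ Y ≤ 2 * (WW α δ Y : ℝ) := by
  rw [WW_eq, Phi, Finset.mul_sum, Nat.cast_sum, Finset.mul_sum]
  refine Finset.sum_le_sum fun p hp => ?_
  have hb := mem_box.1 (mem_Prim.1 hp).1
  have hmax : 0 < max p.1 p.2 := lt_max_of_lt_left hb.1.1
  have hY : max p.1 p.2 ≤ Y := max_le hb.1.2 hb.2.2
  set m := max p.1 p.2
  have h1 : 1 ≤ Y / m := Nat.div_pos hY hmax
  have h2 : Y < m * (Y / m + 1) := Nat.lt_mul_div_succ Y hmax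
  have h3 : Y ≤ 2 * (Y / m) * m := by nlinarith
  rw [mul_one_div, div_le_iff₀ (by exact_mod_cast hmax)]
  exact_mod_cast h3

lemma WW_sq (α δ : ℝ) (Z τ : ℕ) (hτ : ∀ n ≤ Z ^ 2, #n.divisors ≤ τ) :
    WW α δ Z ^ 2 ≤ τ ^ 2 * WW α (2 * δ) (Z ^ 2) := by
  classical
  rw [WW, WW, sq, ← Finset.card_product]
  refine Finset.card_le_mul_card_image_of_maps_to
    (f := fun x : (ℕ × ℕ) × (ℕ × ℕ) => (x.1.1 * x.2.1, x.1.2 * x.2.2)) ?_ _ ?_
  · rintro ⟨⟨a, b⟩, ⟨c, d⟩⟩ hx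
    obtain ⟨h1, h2⟩ := Finset.mem_product.1 hx
    obtain ⟨h3, k, hk⟩ := Finset.mem_filter.1 h1
    obtain ⟨h4, l, hl⟩ := Finset.mem_filter.1 h2
    rw [mem_box] at h3 h4
    dsimp only at h3 h4 hk hl ⊢
    refine Finset.mem_filter.2 ⟨mem_box.2 ⟨⟨Nat.mul_pos h3.1.1 h4.1.1, ?_⟩, Nat.mul_pos h3.2.1 h4.2.1,
      ?_⟩, k + l, ?_⟩
    · rw [sq]; exact Nat.mul_le_mul h3.1.2 h4.1.2
    · rw [sq]; exact Nat.mul_le_mul h3.2.2 h4.2.2
    · have ha : (a : ℝ) ≠ 0 := by exact_mod_cast (by omega : a ≠ 0)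
      have hb : (b : ℝ) ≠ 0 := by exact_mod_cast (by omega : b ≠ 0)
      have hc : (c : ℝ) ≠ 0 := by exact_mod_cast (by omega : c ≠ 0)
      have hd : (d : ℝ) ≠ 0 := by exact_mod_cast (by omega : d ≠ 0)
      push_cast
      rw [Real.log_mul ha hc, Real.log_mul hb hd]
      have a1 := abs_le.1 hk
      have a2 := abs_le.1 hl
      rw [abs_le]; constructor <;> linarith [a1.1, a1.2, a2.1, a2.2]
  · rintro ⟨n, m⟩ hp
    have hb := mem_box.1 (Finset.mem_filter.1 hp).1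
    dsimp only at hb
    calc _ ≤ #(n.divisors ×ˢ m.divisors) := by
          refine Finset.card_le_card_of_injOn (fun x => x.1) ?_ ?_
          · rintro ⟨⟨a, b⟩, ⟨c, d⟩⟩ hx
            have h := (Finset.mem_filter.1 hx).2
            dsimp only at h
            obtain ⟨h1, h2⟩ := Prod.mk.inj h
            simp only [Finset.coe_product, Set.mem_prod, Finset.mem_coe, Nat.mem_divisors]
            exact ⟨⟨Dvd.intro _ h1, by omega⟩, Dvd.intro _ h2, by omega⟩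
          · rintro ⟨⟨a, b⟩, ⟨c, d⟩⟩ hx ⟨⟨a', b'⟩, ⟨c', d'⟩⟩ hy h
            have h0 := (Finset.mem_filter.1 hx).2
            have h0' := (Finset.mem_filter.1 hy).2
            dsimp only at h h0 h0'
            obtain ⟨rfl, rfl⟩ := Prod.mk.inj h
            obtain ⟨h1, h2⟩ := Prod.mk.inj h0
            obtain ⟨h3, h4⟩ := Prod.mk.inj h0'
            have ha : 0 < a := Nat.pos_of_ne_zero (by rintro rfl; omega)
            have hb : 0 < b := Nat.pos_of_ne_zero (by rintro rfl; omega)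
            rw [Nat.eq_of_mul_eq_mul_left ha (h1.trans h3.symm),
              Nat.eq_of_mul_eq_mul_left hb (h2.trans h4.symm)]
      _ ≤ τ ^ 2 := by
          rw [Finset.card_product, sq]
          exact Nat.mul_le_mul (hτ n hb.1.2) (hτ m hb.2.2)

lemma WW_double (α : ℝ) (R Y : ℕ) (hR : 1 ≤ R) : WW α (2 * (1 / R)) Y ≤ 5 * WW α (1 / R) Y := by
  have h := card_double (Icc 1 Y) R hR (fun n : ℕ => α * Real.log n)
  rw [mul_one_div]
  exact h

lemma Phi_nonneg (α δ : ℝ) (Y : ℕ) : 0 ≤ Phi α δ Y := Finset.sum_nonneg fun _ _ => by positivity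

lemma Phi_sq (α : ℝ) (R Z τ : ℕ) (hR : 1 ≤ R) (hZ : 1 ≤ Z) (hτ : ∀ n ≤ Z ^ 2, #n.divisors ≤ τ) :
    Phi α (1 / R) Z ^ 2 ≤ 20 * τ ^ 2 * Phi α (1 / R) (Z ^ 2) := by
  have h1 := le_WW α (1 / R) Z
  have h2 : (WW α (1 / R) Z : ℝ) ^ 2 ≤ τ ^ 2 * (5 * WW α (1 / R) (Z ^ 2)) := by
    exact_mod_cast (WW_sq α (1 / R) Z τ hτ).trans (Nat.mul_le_mul_left _ (WW_double α R _ hR))
  have h3 := WW_le α (1 / R) (Z ^ 2)
  have h4 := Phi_nonneg α (1 / R) Z
  have hZ0 : (0 : ℝ) < Z := by exact_mod_cast hZ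
  have h5 := pow_le_pow_left₀ (by positivity) h1 2
  push_cast at h3
  have h6 : (Z : ℝ) ^ 2 * Phi α (1 / R) Z ^ 2 ≤ Z ^ 2 * (20 * τ ^ 2 * Phi α (1 / R) (Z ^ 2)) := by
    have h7 := mul_le_mul_of_nonneg_left h3 (show (0 : ℝ) ≤ 20 * τ ^ 2 by positivity)
    nlinarith
  exact le_of_mul_le_mul_left h6 (by positivity)

lemma Prim_mono (α δ : ℝ) {Y Y' : ℕ} (h : Y ≤ Y') : Prim α δ Y ⊆ Prim α δ Y' := by
  intro p hp
  obtain ⟨hb, h'⟩ := mem_Prim.1 hp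
  rw [mem_box] at hb
  exact mem_Prim.2 ⟨mem_box.2 ⟨⟨hb.1.1, hb.1.2.trans h⟩, hb.2.1, hb.2.2.trans h⟩, h'⟩

lemma Phi_mono (α δ : ℝ) {Y Y' : ℕ} (h : Y ≤ Y') : Phi α δ Y ≤ Phi α δ Y' :=
  Finset.sum_le_sum_of_subset_of_nonneg (Prim_mono α δ h) fun _ _ _ => by positivity

/-- The number of coprime close pairs of height in `(Q, 2 Q]`. -/
noncomputable def KK (α δ : ℝ) (Q : ℕ) : ℕ := #{p ∈ Prim α δ (2 * Q) | Q < max p.1 p.2}

lemma Phi_double (α δ : ℝ) (Q : ℕ) (hQ : 1 ≤ Q) :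
    Phi α δ (2 * Q) ≤ Phi α δ Q + KK α δ Q / Q := by
  have hQ0 : (0 : ℝ) < Q := by exact_mod_cast hQ
  rw [Phi, ← Finset.sum_filter_add_sum_filter_not _ (fun p : ℕ × ℕ => Q < max p.1 p.2), add_comm]
  refine add_le_add ?_ ?_
  · refine Finset.sum_le_sum_of_subset_of_nonneg (fun p hp => ?_) fun _ _ _ => by positivity
    obtain ⟨h1, h2⟩ := Finset.mem_filter.1 hp
    obtain ⟨hb, h'⟩ := mem_Prim.1 h1
    rw [mem_box] at hb
    exact mem_Prim.2 ⟨mem_box.2 ⟨⟨hb.1.1, by omega⟩, hb.2.1, by omega⟩, h'⟩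
  · rw [KK, div_eq_mul_one_div, ← nsmul_eq_mul, ← Finset.sum_const]
    refine Finset.sum_le_sum fun p hp => one_div_le_one_div_of_le hQ0 ?_
    exact_mod_cast (Finset.mem_filter.1 hp).2.le

lemma Phi_dyadic (α δ G : ℝ) (Z Y : ℕ) (hZ : 1 ≤ Z) (hG : 0 ≤ G)
    (h : ∀ Q, Z ≤ Q → Q ≤ Y → (KK α δ Q : ℝ) / Q ≤ G) (j : ℕ) :
    ∀ Y' ≤ Y, Y' ≤ 2 ^ j * Z → Phi α δ Y' ≤ Phi α δ Z + j * G := by
  induction j with
  | zero => intro Y' _ h2; simpa using Phi_mono α δ (by simpa using h2)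
  | succ j ih =>
    intro Y' h1 h2
    push_cast
    by_cases h3 : Y' ≤ 2 ^ j * Z
    · linarith [ih Y' h1 h3]
    · have h4 : Z ≤ 2 ^ j * Z := Nat.le_mul_of_pos_left _ (by positivity)
      have h5 := Phi_double α δ (2 ^ j * Z) (hZ.trans h4)
      have h6 := h (2 ^ j * Z) h4 (by omega)
      have h7 := ih (2 ^ j * Z) (by omega) le_rfl
      have h8 := Phi_mono α δ (show Y' ≤ 2 * (2 ^ j * Z) by rw [pow_succ] at h2; linarith)
      linarith

lemma log_sep {u v B : ℕ} (hu : 1 ≤ u) (hv : 1 ≤ v) (huB : u ≤ B) (hvB : v ≤ B)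
    (h : |Real.log u - Real.log v| < 1 / B) : u = v := by
  have key : ∀ {u v : ℕ}, 1 ≤ u → u < v → v ≤ B → 1 / (B : ℝ) ≤ Real.log v - Real.log u := by
    intro u v hu huv hvB
    have h1 : (0 : ℝ) < u := by exact_mod_cast hu
    have h2 : (u : ℝ) + 1 ≤ v := by exact_mod_cast huv
    have h3 : (v : ℝ) ≤ B := by exact_mod_cast hvB
    have h0 : (0 : ℝ) < v := by linarith
    have h4 := Real.log_le_sub_one_of_pos (show 0 < (u : ℝ) / v by positivity)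
    rw [Real.log_div h1.ne' h0.ne'] at h4
    have h5 : 1 / (B : ℝ) ≤ 1 / v := one_div_le_one_div_of_le h0 h3
    have h6 : (u : ℝ) / v + 1 / v ≤ 1 := by rw [← add_div, div_le_one h0]; exact h2
    linarith
  rcases lt_trichotomy u v with h' | h' | h'
  · have := key hu h' hvB
    have := (abs_lt.1 h).1
    linarith
  · exact h'
  · have := key hv h' huB
    have := (abs_lt.1 h).2
    linarith

lemma coprime_eq {a q a' q' : ℕ} (h : a.Coprime q) (h' : a'.Coprime q') (e : a * q' = a' * q) :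
    a = a' ∧ q = q' := by
  have h1 : a ∣ a' := h.dvd_of_dvd_mul_right ⟨q', e.symm⟩
  have h2 : a' ∣ a := h'.dvd_of_dvd_mul_right ⟨q, e⟩
  have h3 : q ∣ q' := h.symm.dvd_of_dvd_mul_left ⟨a', by rw [e, mul_comm]⟩
  have h4 : q' ∣ q := h'.symm.dvd_of_dvd_mul_left ⟨a, by rw [← e, mul_comm]⟩
  exact ⟨Nat.dvd_antisymm h1 h2, Nat.dvd_antisymm h3 h4⟩

lemma prim_sep {α δ : ℝ} {Y : ℕ} {p p' : ℕ × ℕ} (hp : p ∈ Prim α δ Y) (hp' : p' ∈ Prim α δ Y)
    (h : |(Real.log p.1 - Real.log p.2) - (Real.log p'.1 - Real.log p'.2)| < 1 / (Y : ℝ) ^ 2) :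
    p = p' := by
  obtain ⟨hb, hc, -⟩ := mem_Prim.1 hp
  obtain ⟨hb', hc', -⟩ := mem_Prim.1 hp'
  rw [mem_box] at hb hb'
  have ha : (p.1 : ℝ) ≠ 0 := by exact_mod_cast (by omega : p.1 ≠ 0)
  have hq : (p.2 : ℝ) ≠ 0 := by exact_mod_cast (by omega : p.2 ≠ 0)
  have ha' : (p'.1 : ℝ) ≠ 0 := by exact_mod_cast (by omega : p'.1 ≠ 0)
  have hq' : (p'.2 : ℝ) ≠ 0 := by exact_mod_cast (by omega : p'.2 ≠ 0)
  have e := log_sep (u := p.1 * p'.2) (v := p'.1 * p.2) (B := Y ^ 2) (Nat.mul_pos hb.1.1 hb'.2.1)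
    (Nat.mul_pos hb'.1.1 hb.2.1) (by rw [sq]; exact Nat.mul_le_mul hb.1.2 hb'.2.2)
    (by rw [sq]; exact Nat.mul_le_mul hb'.1.2 hb.2.2) (by
      push_cast
      rw [Real.log_mul ha hq', Real.log_mul ha' hq]
      refine lt_of_eq_of_lt ?_ h
      congr 1; ring)
  obtain ⟨h1, h2⟩ := coprime_eq hc hc' e
  exact Prod.ext h1 h2

lemma log_ratio_le {Y : ℕ} {p : ℕ × ℕ} (hp : p ∈ box Y) :
    |Real.log p.1 - Real.log p.2| ≤ Real.log Y := by
  rw [mem_box] at hp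
  have h1 : 0 ≤ Real.log p.1 := Real.log_natCast_nonneg _
  have h2 : 0 ≤ Real.log p.2 := Real.log_natCast_nonneg _
  have h3 : Real.log p.1 ≤ Real.log Y :=
    Real.log_le_log (by exact_mod_cast hp.1.1) (by exact_mod_cast hp.1.2)
  have h4 : Real.log p.2 ≤ Real.log Y :=
    Real.log_le_log (by exact_mod_cast hp.2.1) (by exact_mod_cast hp.2.2)
  rw [abs_le]; constructor <;> linarith

lemma card_Prim_le {α δ : ℝ} (hα : 0 < α) (hδ0 : 0 ≤ δ) (hδ : δ ≤ 1) (Y : ℕ) :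
    (#(Prim α δ Y) : ℝ) ≤ (2 * α * Real.log Y + 3) * (1 + 2 * Y ^ 2 * δ / α) := by
  have hex : ∀ p : ℕ × ℕ, ∃ k : ℤ, p ∈ Prim α δ Y →
      |α * Real.log p.1 - α * Real.log p.2 - k| ≤ δ := by
    intro p
    by_cases hp : p ∈ Prim α δ Y
    · obtain ⟨k, hk⟩ := (mem_Prim.1 hp).2.2
      exact ⟨k, fun _ => hk⟩
    · exact ⟨0, fun h => absurd h hp⟩
  choose k hk using hex
  have hlog : 0 ≤ Real.log Y := Real.log_natCast_nonneg _
  set A : ℕ := ⌊α * Real.log Y + 1⌋₊ with hA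
  set B : ℕ := ⌊2 * Y ^ 2 * δ / α⌋₊ with hB
  set w : ℕ × ℕ → ℝ := fun p => Y ^ 2 * (α * Real.log p.1 - α * Real.log p.2 - k p + δ) / α with hw
  have hw0 : ∀ p ∈ Prim α δ Y, 0 ≤ w p := by
    intro p hp
    have := (abs_le.1 (hk p hp)).1
    exact div_nonneg (mul_nonneg (by positivity) (by linarith)) hα.le
  have h1 : #(Prim α δ Y) ≤ #(Icc (-(A : ℤ)) A ×ˢ range (B + 1)) := by
    refine Finset.card_le_card_of_injOn (fun p => (k p, ⌊w p⌋₊)) (fun p hp => ?_)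
      (fun p hp p' hp' h => ?_)
    · have a1 := abs_le.1 (hk p hp)
      have a2 := abs_le.1 (log_ratio_le (mem_Prim.1 hp).1)
      have a3 : |(k p : ℝ)| ≤ α * Real.log Y + 1 := by
        have b1 := mul_le_mul_of_nonneg_left a2.1 hα.le
        have b2 := mul_le_mul_of_nonneg_left a2.2 hα.le
        rw [abs_le]; constructor <;> linarith [a1.1, a1.2]
      have a4 : (k p).natAbs ≤ A := Nat.le_floor (by rw [Nat.cast_natAbs, Int.cast_abs]; exact a3)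
      have a5 : ⌊w p⌋₊ ≤ B := by
        refine Nat.floor_le_floor (div_le_div_of_nonneg_right ?_ hα.le)
        have : (0 : ℝ) ≤ Y ^ 2 := by positivity
        nlinarith [a1.2]
      simp only [Finset.coe_product, Set.mem_prod, Finset.mem_coe, Finset.mem_Icc, Finset.mem_range]
      omega
    · obtain ⟨e1, e2⟩ := Prod.mk.inj h
      have hY : (0 : ℝ) < Y := by
        have := mem_box.1 (mem_Prim.1 hp).1
        exact_mod_cast (by omega : 0 < Y)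
      refine prim_sep hp hp' ?_
      have b1 := Nat.floor_le (hw0 p hp)
      have b2 := Nat.lt_floor_add_one (w p)
      have b3 := Nat.floor_le (hw0 p' hp')
      have b4 := Nat.lt_floor_add_one (w p')
      have b5 : |w p - w p'| < 1 := by
        rw [e2] at b1 b2
        rw [abs_lt]; constructor <;> linarith
      have b6 : w p - w p' = Y ^ 2 *
          ((Real.log p.1 - Real.log p.2) - (Real.log p'.1 - Real.log p'.2)) := by
        simp only [hw, e1]; field_simp; ring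
      rw [b6, abs_mul, abs_of_pos (by positivity : (0 : ℝ) < Y ^ 2)] at b5
      rw [lt_div_iff₀ (by positivity)]; linarith
  rw [Finset.card_product, Int.card_Icc, Finset.card_range] at h1
  have h2 : ((A : ℤ) + 1 - -(A : ℤ)).toNat = 2 * A + 1 := by omega
  rw [h2] at h1
  have h3 : (#(Prim α δ Y) : ℝ) ≤ (2 * A + 1) * (B + 1) := by exact_mod_cast h1
  have h4 : (A : ℝ) ≤ α * Real.log Y + 1 := Nat.floor_le (by positivity)
  have h5 : (B : ℝ) ≤ 2 * Y ^ 2 * δ / α := Nat.floor_le (by positivity)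
  exact h3.trans (mul_le_mul (by linarith) (by linarith) (by positivity) (by positivity))

end Pool.Agent.MP_71ac24_nt

end

-- part MP_71ac24_nt.Key
section

/-!
The bound for the number of coprime close pairs of given height.
-/

set_option autoImplicit false

open Finset

namespace Pool.Agent.MP_71ac24_nt

lemma near_swap {α δ : ℝ} {p : ℕ × ℕ} (h : Near α δ p) : Near α δ p.swap := by
  obtain ⟨k, hk⟩ := h
  refine ⟨-k, ?_⟩
  rw [← abs_neg] at hk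
  simp only [Prod.fst_swap, Prod.snd_swap, Int.cast_neg]
  refine le_of_eq_of_le ?_ hk
  congr 1; ring

lemma KK_le_half (α δ : ℝ) (Q : ℕ) :
    KK α δ Q ≤ 2 * #{p ∈ Prim α δ (2 * Q) | p.1 ≤ p.2} := by
  have h1 : #(Prim α δ (2 * Q)) = #{p ∈ Prim α δ (2 * Q) | p.1 ≤ p.2} +
      #{p ∈ Prim α δ (2 * Q) | ¬ p.1 ≤ p.2} :=
    (Finset.card_filter_add_card_filter_not _).symm
  have h2 : #{p ∈ Prim α δ (2 * Q) | ¬ p.1 ≤ p.2} ≤ #{p ∈ Prim α δ (2 * Q) | p.1 ≤ p.2} := by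
    refine Finset.card_le_card_of_injOn Prod.swap (fun p hp => ?_)
      (fun p _ p' _ h => Prod.swap_injective h)
    obtain ⟨hp1, hp2⟩ := Finset.mem_filter.1 hp
    obtain ⟨hb, hc, hn⟩ := mem_Prim.1 hp1
    rw [mem_box] at hb
    refine Finset.mem_filter.2 ⟨mem_Prim.2 ⟨mem_box.2 ⟨hb.2, hb.1⟩, hc.symm, near_swap hn⟩, ?_⟩
    simp only [Prod.fst_swap, Prod.snd_swap]
    omega
  have h3 : KK α δ Q ≤ #(Prim α δ (2 * Q)) := Finset.card_filter_le _ _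
  omega

lemma half_bound {α R L : ℝ} {Q τ : ℕ} (hα : 0 < α) (hR : 1 ≤ R) (hL : 1 ≤ L) (hQ : 1 ≤ Q)
    (hsep : 8 * (Q : ℝ) ^ 2 < α * R)
    (H1 : α⁻¹ * Q * L ≤ 1 / 100) (H2 : Q * L ≤ α⁻¹ * (α * R) / 1000)
    (H3 : α⁻¹ ^ 2 * Q * L ^ 4 ≤ 1 / 100) (hT4 : α * R * (α⁻¹ * L) ^ 4 ≤ 1)
    (hA : 10 ^ 12 * α⁻¹ * Q ^ 6 * L ^ 7 < (α * R) ^ 2)
    (hB : 10 ^ 12 * α⁻¹ ^ 4 * Q ^ 6 * L ^ 10 < α * R)
    (hτ : ∀ n : ℕ, (n : ℝ) ≤ 8 * (α * R) ^ 6 → #n.divisors ≤ τ) :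
    (#{p ∈ Prim α (1 / R) (2 * Q) | p.1 ≤ p.2} : ℝ) ≤
      (τ * (3 * τ + 3) + 3 : ℕ) * ((α * Real.log (2 * Q) + 1) / L + 3) := by
  classical
  set T := α * R with hT
  have hQ1 : (1 : ℝ) ≤ Q := by exact_mod_cast hQ
  have hR0 : 0 < R := by linarith
  have hL0 : 0 < L := by linarith
  have hT8 : 8 < T := by nlinarith
  have hT0 : 0 < T := by linarith
  have hδ : 1 / R ≤ 1 := by rw [div_le_one hR0]; exact hR
  set s := {p ∈ Prim α (1 / R) (2 * Q) | p.1 ≤ p.2} with hs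
  have hex : ∀ p : ℕ × ℕ, ∃ k : ℤ, p ∈ s → |α * Real.log p.1 - α * Real.log p.2 - k| ≤ 1 / R := by
    intro p
    by_cases hp : p ∈ s
    · obtain ⟨k, hk⟩ := (mem_Prim.1 (Finset.mem_filter.1 hp).1).2.2
      exact ⟨k, fun _ => hk⟩
    · exact ⟨0, fun h => absurd h hp⟩
  choose k hk using hex
  have hk' : ∀ p ∈ s, |Real.log p.1 - Real.log p.2 - α⁻¹ * k p| ≤ 1 / T := by
    intro p hp
    have e : Real.log p.1 - Real.log p.2 - α⁻¹ * k p =
        α⁻¹ * (α * Real.log p.1 - α * Real.log p.2 - k p) := by field_simp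
    rw [e, abs_mul, abs_of_pos (inv_pos.2 hα)]
    refine (mul_le_mul_of_nonneg_left (hk p hp) (inv_pos.2 hα).le).trans_eq ?_
    rw [hT]; field_simp
  have hkinj : ∀ p ∈ s, ∀ p' ∈ s, k p = k p' → p = p' := by
    intro p hp p' hp' h
    refine prim_sep (Finset.mem_filter.1 hp).1 (Finset.mem_filter.1 hp').1 ?_
    have a1 := abs_le.1 (hk' p hp)
    have a2 := abs_le.1 (hk' p' hp')
    rw [h] at a1
    have a3 : 2 * (1 / T) < 1 / ((2 * Q : ℕ) : ℝ) ^ 2 := by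
      push_cast
      rw [mul_one_div, div_lt_div_iff₀ hT0 (by positivity)]; linarith
    rw [abs_lt]; constructor <;> linarith [a1.1, a1.2, a2.1, a2.2]
  have hle : ∀ p ∈ s, Real.log p.1 ≤ Real.log p.2 := by
    intro p hp
    have hb := mem_box.1 (mem_Prim.1 (Finset.mem_filter.1 hp).1).1
    exact Real.log_le_log (by exact_mod_cast hb.1.1) (by exact_mod_cast (Finset.mem_filter.1 hp).2)
  have hlog : 0 ≤ Real.log (2 * Q) := Real.log_nonneg (by linarith)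
  set A : ℕ := ⌈(α * Real.log (2 * Q) + 1) / L⌉₊ with hAdef
  have hmaps : ∀ p ∈ s, ⌊k p / L⌋ ∈ Icc (-(A : ℤ)) 1 := by
    intro p hp
    have a1 := abs_le.1 (hk p hp)
    have a2 := (abs_le.1 (log_ratio_le (mem_Prim.1 (Finset.mem_filter.1 hp).1).1)).1
    have a3 := mul_le_mul_of_nonneg_left (hle p hp) hα.le
    have a4 := mul_le_mul_of_nonneg_left a2 hα.le
    push_cast at a4
    rw [Finset.mem_Icc]
    constructor
    · rw [Int.le_floor]
      push_cast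
      have a5 : (α * Real.log (2 * Q) + 1) / L ≤ A := Nat.le_ceil _
      have a6 : -((α * Real.log (2 * Q) + 1) / L) ≤ k p / L := by
        rw [← neg_div]; exact div_le_div_of_nonneg_right (by linarith [a1.2]) hL0.le
      linarith
    · have : (⌊k p / L⌋ : ℝ) ≤ 1 := by
        refine (Int.floor_le _).trans ?_
        rw [div_le_one hL0]; linarith [a1.1]
      exact_mod_cast this
  have hfib : ∀ j ∈ Icc (-(A : ℤ)) 1, #{p ∈ s | ⌊k p / L⌋ = j} ≤ τ * (3 * τ + 3) + 3 := by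
    intro j _
    set F := {p ∈ s | ⌊k p / L⌋ = j} with hF
    rcases F.eq_empty_or_nonempty with h0 | ⟨p0, hp0⟩
    · rw [h0]; simp
    set k0 : ℤ := ⌈j * L⌉ with hk0
    have hFs : ∀ p ∈ F, p ∈ s := fun p hp => (Finset.mem_filter.1 hp).1
    have hx : ∀ p ∈ F, 0 ≤ k p - k0 ∧ ((k p - k0 : ℤ) : ℝ) ≤ L := by
      intro p hp
      have h1 := (Finset.mem_filter.1 hp).2
      have h2 := Int.floor_le (k p / L)
      have h3 := Int.lt_floor_add_one (k p / L)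
      rw [h1] at h2 h3
      rw [le_div_iff₀ hL0] at h2
      rw [div_lt_iff₀ hL0] at h3
      have h4 := Int.le_ceil (j * L)
      refine ⟨sub_nonneg.2 (Int.ceil_le.2 h2), ?_⟩
      push_cast; linarith
    set J := F.image (fun p => k p - k0) with hJ
    have hcard : #J = #F := Finset.card_image_of_injOn fun p hp p' hp' h =>
      hkinj p (hFs p hp) p' (hFs p' hp') (by simpa using h)
    have hex2 : ∀ x : ℤ, ∃ p : ℕ × ℕ, x ∈ J → p ∈ F ∧ k p - k0 = x := by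
      intro x
      by_cases hx : x ∈ J
      · obtain ⟨p, hp⟩ := Finset.mem_image.1 hx
        exact ⟨p, fun _ => hp⟩
      · exact ⟨(0, 0), fun h => absurd h hx⟩
    choose pp hpp using hex2
    have hP : ∀ x ∈ J, pp x ∈ Prim α (1 / R) (2 * Q) := fun x hx =>
      (Finset.mem_filter.1 (hFs _ (hpp x hx).1)).1
    have hT1 : 1 / T ≤ 1 / 2 := one_div_le_one_div_of_le (by norm_num) (by linarith)
    rw [← hcard]
    refine local_bound (β := α⁻¹) (L := L) (Q := Q) (T := T) (f := Real.exp (α⁻¹ * k0)) J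
      (fun x => (pp x).1) (fun x => (pp x).2) τ (inv_pos.2 hα) hL hQ1 (Real.exp_pos _) ?_ H1 H2 H3
      hT4 hA hB (fun x hx' => ?_) (fun x hx' => ?_) (fun x hx' => ?_) (fun x hx' => ?_)
      (fun x hx' => ?_) (fun x hx' y hy' h => ?_) hτ
    · refine le_trans (Real.exp_le_exp.2 ?_) (exp_le_two (by positivity) hT1)
      have a1 := (abs_le.1 (hk' p0 (hFs p0 hp0))).1
      have a2 := hle p0 (hFs p0 hp0)
      have a3 : (k0 : ℝ) ≤ k p0 := by exact_mod_cast sub_nonneg.1 (hx p0 hp0).1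
      have a4 := mul_le_mul_of_nonneg_left a3 (inv_pos.2 hα).le
      linarith
    · rw [← (hpp x hx').2]; exact hx _ (hpp x hx').1
    · exact Nat.isCoprime_iff_coprime.2 (mem_Prim.1 (hP x hx')).2.1
    · exact_mod_cast (mem_box.1 (mem_Prim.1 (hP x hx')).1).2.1
    · exact_mod_cast (mem_box.1 (mem_Prim.1 (hP x hx')).1).2.2
    · have hb := mem_box.1 (mem_Prim.1 (hP x hx')).1
      have h1 := hk' _ (hFs _ (hpp x hx').1)
      have h2 : (k (pp x) : ℝ) = k0 + x := by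
        have := (hpp x hx').2
        exact_mod_cast (by linarith : k (pp x) = k0 + x)
      have ha : (0 : ℝ) < (pp x).1 := by exact_mod_cast hb.1.1
      have hq : (0 : ℝ) < (pp x).2 := by exact_mod_cast hb.2.1
      set w := Real.log (pp x).1 - Real.log (pp x).2 - α⁻¹ * k (pp x) with hw
      have h3 := Real.abs_exp_sub_one_le (x := w) (by linarith)
      have h4 : ((pp x).1 : ℝ) = Real.exp (α⁻¹ * k0) * Real.exp (α⁻¹ * x) * (pp x).2 * Real.exp w := by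
        rw [hw, h2, ← Real.exp_add, Real.exp_sub, Real.exp_sub, Real.exp_log ha, Real.exp_log hq,
          mul_add]
        field_simp
      simp only [Int.cast_natCast]
      set E := Real.exp (α⁻¹ * k0) * Real.exp (α⁻¹ * x) * (pp x).2 with hE
      have hE0 : 0 < E := by positivity
      rw [h4, show E * Real.exp w - E = (Real.exp w - 1) * E by ring, abs_mul, abs_of_pos hE0]
      refine mul_le_mul_of_nonneg_right (h3.trans ?_) hE0.le
      rw [div_eq_mul_one_div 2 T]; linarith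
    · obtain ⟨h1, h2⟩ := coprime_eq (mem_Prim.1 (hP x hx')).2.1 (mem_Prim.1 (hP y hy')).2.1
        (by exact_mod_cast h)
      rw [← (hpp x hx').2, ← (hpp y hy').2, Prod.ext h1 h2]
  have h1 := Finset.card_le_mul_card_image_of_maps_to hmaps _ hfib
  rw [Int.card_Icc, show ((1 : ℤ) + 1 - -(A : ℤ)).toNat = A + 2 by omega] at h1
  have h2 : (#s : ℝ) ≤ (τ * (3 * τ + 3) + 3 : ℕ) * ((A : ℝ) + 2) := by exact_mod_cast h1
  have h3 : (A : ℝ) < (α * Real.log (2 * Q) + 1) / L + 1 := Nat.ceil_lt_add_one (by positivity)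
  exact h2.trans (mul_le_mul_of_nonneg_left (by linarith) (by positivity))

/-- The range of parameters covered by the argument. -/
def Good (T R M : ℝ) : Prop :=
  T ^ 2 * R ≤ M ^ 4 ∨ (T ≤ M * R ∧ T ^ 8 * R ^ 3 ≤ M ^ 16 ∧ T ^ 5 * R ^ 6 ≤ M ^ 14)

lemma KK_trivial {α R M : ℝ} {Q : ℕ} (hα : 1 / 7 ≤ α) (hR : 1 ≤ R) (hQ : 1 ≤ Q)
    (h : α * R ≤ 1000 * Q * M) :
    (KK α (1 / R) Q : ℝ) / Q ≤ 2000 * (Real.log (2 * Q) + 21) * (M / R + Q / R) := by
  have hα0 : 0 < α := by linarith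
  have hQ1 : (1 : ℝ) ≤ Q := by exact_mod_cast hQ
  have hR0 : 0 < R := by linarith
  have hlog : 0 ≤ Real.log (2 * Q) := Real.log_nonneg (by linarith)
  have h1 : (KK α (1 / R) Q : ℝ) ≤ #(Prim α (1 / R) (2 * Q)) := by
    exact_mod_cast Finset.card_filter_le _ _
  have h2 := card_Prim_le hα0 (by positivity : 0 ≤ 1 / R) (by rw [div_le_one hR0]; exact hR) (2 * Q)
  push_cast at h2
  rw [div_le_iff₀ (by linarith)]
  refine (h1.trans h2).trans ?_
  have h3 : 2 * α * Real.log (2 * Q) + 3 ≤ α * (2 * (Real.log (2 * Q) + 21)) := by nlinarith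
  have h4 : α * (1 + 2 * (2 * Q) ^ 2 * (1 / R) / α) ≤ 1000 * (M / R + Q / R) * Q := by
    have e1 : α * (1 + 2 * (2 * Q) ^ 2 * (1 / R) / α) = (α * R + 8 * Q ^ 2) / R := by
      field_simp; ring
    have e2 : 1000 * (M / R + Q / R) * Q = (1000 * Q * M + 1000 * Q ^ 2) / R := by
      field_simp
    rw [e1, e2]
    exact div_le_div_of_nonneg_right (by nlinarith) hR0.le
  calc _ ≤ α * (2 * (Real.log (2 * Q) + 21)) * (1 + 2 * (2 * Q) ^ 2 * (1 / R) / α) :=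
        mul_le_mul_of_nonneg_right h3 (by positivity)
    _ = 2 * (Real.log (2 * Q) + 21) * (α * (1 + 2 * (2 * Q) ^ 2 * (1 / R) / α)) := by ring
    _ ≤ 2 * (Real.log (2 * Q) + 21) * (1000 * (M / R + Q / R) * Q) :=
        mul_le_mul_of_nonneg_left h4 (by positivity)
    _ = _ := by ring

lemma KK_bound {α R M : ℝ} {Q τ : ℕ} (hα : 1 / 7 ≤ α) (hR : 1 ≤ R) (hM : R ≤ M) (hQ : 1 ≤ Q)
    (hG : Good (α * R) R M) (hQR : M ^ 2 ≤ Q ^ 2 * R)
    (hτ : ∀ n : ℕ, (n : ℝ) ≤ 8 * M ^ 12 → #n.divisors ≤ τ) :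
    (KK α (1 / R) Q : ℝ) / Q ≤
      2000 * (τ * (3 * τ + 3) + 3 : ℕ) * (Real.log (2 * Q) + 21) * (M / R + Q / R) := by
  have hα0 : 0 < α := by linarith
  have hQ1 : (1 : ℝ) ≤ Q := by exact_mod_cast hQ
  have hQ0 : (0 : ℝ) < Q := by linarith
  have hR0 : 0 < R := by linarith
  have hM0 : 0 < M := by linarith
  have hlog : 0 ≤ Real.log (2 * Q) := Real.log_nonneg (by linarith)
  have hB1 : (1 : ℝ) ≤ (τ * (3 * τ + 3) + 3 : ℕ) := by exact_mod_cast (by omega)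
  set B : ℝ := ((τ * (3 * τ + 3) + 3 : ℕ) : ℝ) with hBdef
  by_cases h : α * R ≤ 1000 * Q * M
  · refine (KK_trivial hα hR hQ h).trans ?_
    have : 2000 * (Real.log (2 * Q) + 21) * (M / R + Q / R) =
      2000 * 1 * (Real.log (2 * Q) + 21) * (M / R + Q / R) := by ring
    rw [this]; gcongr
  push Not at h
  obtain ⟨T, hT⟩ : ∃ T, T = α * R := ⟨_, rfl⟩
  have hαT : α = T / R := by rw [hT]; field_simp
  rw [← hT] at h hG
  have hT0 : 0 < T := by rw [hT]; positivity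
  have hQM : 0 < Q * M := by positivity
  rcases hG with hG | ⟨g1, g2, g3⟩
  · exfalso
    have a1 : (Q * M) ^ 2 < T ^ 2 := pow_lt_pow_left₀ (by linarith) hQM.le (by norm_num)
    have a2 := mul_lt_mul_of_pos_right a1 hR0
    have a3 := mul_le_mul_of_nonneg_right hQR (sq_nonneg M)
    nlinarith
  have hQR2 : R ≤ Q ^ 2 := by
    have : R * R ≤ Q ^ 2 * R := by nlinarith
    exact le_of_mul_le_mul_right this hR0
  set L := T / (1000 * Q * M) with hL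
  have hL1 : 1 ≤ L := by rw [hL, one_le_div (by positivity)]; exact h.le
  have c3 : R ^ 2 * T ^ 2 ≤ Q ^ 3 * M ^ 4 := by
    refine le_of_pow_le_pow_left₀ (n := 8) (by norm_num) (by positivity) ?_
    have a1 : (T ^ 8 * R ^ 3) ^ 2 ≤ (M ^ 16) ^ 2 := pow_le_pow_left₀ (by positivity) g2 2
    have a2 : R ^ 10 ≤ R ^ 12 := pow_le_pow_right₀ hR (by norm_num)
    have a3 : R ^ 12 ≤ (Q ^ 2) ^ 12 := pow_le_pow_left₀ hR0.le hQR2 12
    calc (R ^ 2 * T ^ 2) ^ 8 = (T ^ 8 * R ^ 3) ^ 2 * R ^ 10 := by ring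
      _ ≤ (M ^ 16) ^ 2 * (Q ^ 2) ^ 12 := mul_le_mul a1 (a2.trans a3) (by positivity) (by positivity)
      _ = _ := by ring
  have c4 : T * R ^ 4 ≤ Q ^ 4 * M ^ 4 := by
    have a1 : R ^ 2 ≤ (Q ^ 2) ^ 2 := pow_le_pow_left₀ hR0.le hQR2 2
    have a2 : R ^ 3 ≤ M ^ 3 := pow_le_pow_left₀ hR0.le hM 3
    calc T * R ^ 4 ≤ M * R * R ^ 4 := mul_le_mul_of_nonneg_right g1 (by positivity)
      _ = R ^ 2 * R ^ 3 * M := by ring
      _ ≤ (Q ^ 2) ^ 2 * M ^ 3 * M := by gcongr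
      _ = _ := by ring
  have cA : R * T ^ 4 ≤ Q * M ^ 7 := by
    refine le_of_pow_le_pow_left₀ (n := 2) (by norm_num) (by positivity) ?_
    refine le_of_mul_le_mul_right ?_ hR0
    calc (R * T ^ 4) ^ 2 * R = T ^ 8 * R ^ 3 := by ring
      _ ≤ M ^ 2 * M ^ 14 := g2.trans_eq (by ring)
      _ ≤ Q ^ 2 * R * M ^ 14 := mul_le_mul_of_nonneg_right hQR (by positivity)
      _ = _ := by ring
  have cB : R ^ 4 * T ^ 5 ≤ Q ^ 4 * M ^ 10 := by
    refine le_of_mul_le_mul_right ?_ (pow_pos hR0 2)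
    calc R ^ 4 * T ^ 5 * R ^ 2 = T ^ 5 * R ^ 6 := by ring
      _ ≤ (M ^ 2) ^ 2 * M ^ 10 := g3.trans_eq (by ring)
      _ ≤ (Q ^ 2 * R) ^ 2 * M ^ 10 := by gcongr
      _ = _ := by ring
  have hQM' : Q ≤ M := by
    have : Q * M ≤ M * M := by nlinarith
    exact le_of_mul_le_mul_right this hM0
  have hinv : α⁻¹ = R / T := by rw [hαT]; field_simp
  have key := half_bound (α := α) (R := R) (L := L) (Q := Q) (τ := τ) hα0 hR hL1 hQ
    (by rw [← hT]; nlinarith)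
    (by
      have : α⁻¹ * Q * L = R / M / 1000 := by rw [hinv, hL]; field_simp
      have h2 : R / M ≤ 1 := (div_le_one hM0).2 hM
      rw [this]; linarith)
    (by
      have e1 : α⁻¹ * (α * R) / 1000 = R / 1000 := by field_simp
      have e2 : Q * L = T / M / 1000 := by rw [hL]; field_simp
      have h2 : T / M ≤ R := by rw [div_le_iff₀ hM0]; linarith
      rw [e1, e2]; linarith)
    (by
      have : α⁻¹ ^ 2 * Q * L ^ 4 = R ^ 2 * T ^ 2 / (Q ^ 3 * M ^ 4) / 10 ^ 12 := by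
        rw [hinv, hL]; field_simp; ring
      have h2 : R ^ 2 * T ^ 2 / (Q ^ 3 * M ^ 4) ≤ 1 := (div_le_one (by positivity)).2 c3
      rw [this]; linarith)
    (by
      have : T * (α⁻¹ * L) ^ 4 = T * R ^ 4 / (Q ^ 4 * M ^ 4) / 10 ^ 12 := by
        rw [hinv, hL]; field_simp; ring
      have h2 : T * R ^ 4 / (Q ^ 4 * M ^ 4) ≤ 1 := (div_le_one (by positivity)).2 c4
      rw [← hT, this]; linarith)
    (by
      have : 10 ^ 12 * α⁻¹ * Q ^ 6 * L ^ 7 = T ^ 2 * (R * T ^ 4 / (Q * M ^ 7) / 10 ^ 9) := by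
        rw [hinv, hL]; field_simp; ring
      have h2 : R * T ^ 4 / (Q * M ^ 7) ≤ 1 := (div_le_one (by positivity)).2 cA
      rw [← hT, this]
      exact mul_lt_of_lt_one_right (by positivity) (by linarith))
    (by
      have : 10 ^ 12 * α⁻¹ ^ 4 * Q ^ 6 * L ^ 10 = T * (R ^ 4 * T ^ 5 / (Q ^ 4 * M ^ 10) / 10 ^ 18) := by
        rw [hinv, hL]; field_simp; ring
      have h2 : R ^ 4 * T ^ 5 / (Q ^ 4 * M ^ 10) ≤ 1 := (div_le_one (by positivity)).2 cB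
      rw [← hT, this]
      exact mul_lt_of_lt_one_right hT0 (by linarith))
    (fun n hn => hτ n (by
      have a1 : T ≤ M ^ 2 := by nlinarith
      have a2 : T ^ 6 ≤ (M ^ 2) ^ 6 := pow_le_pow_left₀ hT0.le a1 6
      rw [← hT] at hn
      linarith [show (M ^ 2) ^ 6 = M ^ 12 by ring]))
  have h1 : (KK α (1 / R) Q : ℝ) ≤ 2 * #{p ∈ Prim α (1 / R) (2 * Q) | p.1 ≤ p.2} := by
    exact_mod_cast KK_le_half α (1 / R) Q
  have hX : 1 ≤ M / R := (one_le_div hR0).2 hM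
  have h2 : (α * Real.log (2 * Q) + 1) / L + 3 ≤
      1000 * (Real.log (2 * Q) + 21) * (M / R + Q / R) * Q := by
    have e1 : (α * Real.log (2 * Q) + 1) / L = 1000 * Real.log (2 * Q) * (M / R) * Q + 1 / L := by
      rw [hαT, hL]; field_simp
    have e2 : 1 / L ≤ 1 := by rw [div_le_one (by linarith)]; exact hL1
    have e3 : 1 ≤ M / R * Q := by nlinarith
    have e4 : 0 ≤ (Real.log (2 * Q) + 21) * (Q / R) * Q := by positivity
    rw [e1]; nlinarith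
  rw [div_le_iff₀ hQ0]
  have h3 := mul_le_mul_of_nonneg_left h2 (show 0 ≤ B by linarith)
  linarith

end Pool.Agent.MP_71ac24_nt

end
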