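import Pool.Agent.MP_71ac24_nt.Mg.Key

/-!
Montgomery's bound on arithmetic progressions.
-/

set_option autoImplicit false

open Finset Real

namespace Pool.Agent.MP_71ac24_nt

lemma Phi_bound {α : ℝ} {R M τ : ℕ} (hα : 1 / 7 ≤ α) (hR : 1 ≤ R) (hM : R ≤ M)
    (hG : Good (α * R) R M) (hτ : ∀ n : ℕ, (n : ℝ) ≤ 8 * (M : ℝ) ^ 12 → #n.divisors ≤ τ) :
    Phi α (1 / R) M ≤ 10 ^ 6 * τ ^ 3 * (Real.log (8 * M ^ 2) + 21) ^ 2 * (M / R) := by
  have hR1 : (1 : ℝ) ≤ R := by exact_mod_cast hR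
  have hMR : (R : ℝ) ≤ M := by exact_mod_cast hM
  have hR0 : (0 : ℝ) < R := by linarith
  have hM1 : (1 : ℝ) ≤ M := by linarith
  have hM0 : (0 : ℝ) < M := by linarith
  have hM12 : (M : ℝ) ^ 2 ≤ M ^ 12 := pow_le_pow_right₀ hM1 (by norm_num)
  have hM2 : (1 : ℝ) ≤ M ^ 2 := one_le_pow₀ hM1
  have hτ1 : 1 ≤ τ := by simpa using hτ 1 (by push_cast; linarith)
  have hτ1' : (1 : ℝ) ≤ τ := by exact_mod_cast hτ1
  set X : ℝ := M / R with hX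
  have hX1 : 1 ≤ X := (one_le_div hR0).2 hMR
  set Λ : ℝ := Real.log (8 * M ^ 2) + 21 with hΛ
  have hlog : 0 ≤ Real.log (8 * M ^ 2) := Real.log_nonneg (by linarith)
  have hΛ1 : 21 ≤ Λ := by linarith
  -- the cut `Z`
  have hs0 : 0 < Real.sqrt R := Real.sqrt_pos.2 hR0
  have hs2 : Real.sqrt R ^ 2 = R := Real.sq_sqrt hR0.le
  have hsM : Real.sqrt R ≤ M := by
    rw [Real.sqrt_le_left hM0.le]; nlinarith
  set Z : ℕ := ⌈M / Real.sqrt R⌉₊ with hZ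
  have hq1 : 1 ≤ M / Real.sqrt R := (one_le_div hs0).2 hsM
  have hZa : M / Real.sqrt R ≤ Z := Nat.le_ceil _
  have hZb : (Z : ℝ) ≤ 2 * (M / Real.sqrt R) := by
    have := Nat.ceil_lt_add_one (show 0 ≤ M / Real.sqrt R by positivity)
    linarith
  have hZ1 : 1 ≤ Z := by exact_mod_cast hq1.trans hZa
  have e0 : (M / Real.sqrt R) ^ 2 * R = M ^ 2 := by rw [div_pow, hs2]; field_simp
  have hZ2 : (M : ℝ) ^ 2 ≤ Z ^ 2 * R := by
    rw [← e0]; gcongr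
  have hZ3 : (Z : ℝ) ^ 2 * R ≤ 4 * M ^ 2 := by
    calc (Z : ℝ) ^ 2 * R ≤ (2 * (M / Real.sqrt R)) ^ 2 * R := by gcongr
      _ = 4 * ((M / Real.sqrt R) ^ 2 * R) := by ring
      _ = _ := by rw [e0]
  have hZ4 : (Z : ℝ) ^ 2 ≤ 4 * M ^ 2 := (le_mul_of_one_le_right (by positivity) hR1).trans hZ3
  have hZ5 : (Z : ℝ) ^ 2 / R ≤ 4 * X ^ 2 := by
    rw [hX, div_pow, ← mul_div_assoc, div_le_div_iff₀ hR0 (by positivity)]
    nlinarith
  -- dyadic decomposition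
  set D : ℕ := Nat.log 2 (4 * M ^ 2) + 1 with hD
  have hD1 : 4 * M ^ 2 < 2 ^ D := Nat.lt_pow_succ_log_self (by norm_num) _
  have hD2 : (D : ℝ) ≤ 2 * Λ := by
    have h1 : 2 ^ Nat.log 2 (4 * M ^ 2) ≤ 4 * M ^ 2 :=
      Nat.pow_log_le_self 2 (by have : 0 < M := by omega
                                positivity)
    have h2 : (2 : ℝ) ^ Nat.log 2 (4 * M ^ 2) ≤ 8 * M ^ 2 := by
      have : (2 : ℝ) ^ Nat.log 2 (4 * M ^ 2) ≤ 4 * M ^ 2 := by exact_mod_cast h1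
      linarith
    have h3 := Real.log_le_log (by positivity) h2
    rw [Real.log_pow] at h3
    have h4 := Real.log_two_gt_d9
    have h5 : (0 : ℝ) ≤ Nat.log 2 (4 * M ^ 2) := by positivity
    rw [hD]; push_cast; nlinarith
  have hB : ((τ * (3 * τ + 3) + 3 : ℕ) : ℝ) ≤ 9 * τ ^ 2 := by push_cast; nlinarith
  have hdy : ∀ Y : ℕ, (Y : ℝ) ≤ 4 * M ^ 2 →
      Phi α (1 / R) Y ≤ Phi α (1 / R) Z + 36000 * τ ^ 2 * Λ ^ 2 * (X + Y / R) := by
    intro Y hY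
    have hY' : Y ≤ 4 * M ^ 2 := by exact_mod_cast hY
    have h := Phi_dyadic α (1 / R) (18000 * τ ^ 2 * Λ * (X + Y / R)) Z Y hZ1 (by positivity)
      (fun Q hQ1 hQ2 => by
        have hQ0 : (1 : ℝ) ≤ Q := by exact_mod_cast hZ1.trans hQ1
        have hQZ : (Z : ℝ) ≤ Q := by exact_mod_cast hQ1
        have hQY : (Q : ℝ) ≤ Y := by exact_mod_cast hQ2
        refine (KK_bound hα hR1 hMR (hZ1.trans hQ1) hG (hZ2.trans (by gcongr)) hτ).trans ?_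
        have h1 : Real.log (2 * Q) + 21 ≤ Λ :=
          add_le_add (Real.log_le_log (by linarith) (by linarith)) le_rfl
        have h2 : 0 ≤ Real.log (2 * Q) := Real.log_nonneg (by linarith)
        calc _ ≤ 2000 * (9 * τ ^ 2) * Λ * (X + Y / R) := by gcongr
          _ = _ := by ring) D Y le_rfl
      (hY'.trans (hD1.le.trans (Nat.le_mul_of_pos_right _ hZ1)))
    refine h.trans (add_le_add le_rfl ?_)
    calc _ ≤ 2 * Λ * (18000 * τ ^ 2 * Λ * (X + Y / R)) :=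
          mul_le_mul_of_nonneg_right hD2 (by positivity)
      _ = _ := by ring
  have h1 := Phi_sq α R Z τ hR hZ1 (fun n hn => hτ n (by
    have : (n : ℝ) ≤ Z ^ 2 := by exact_mod_cast hn
    linarith))
  have h2 := hdy (Z ^ 2) (by exact_mod_cast hZ4)
  have h3 := hdy M (by nlinarith)
  push_cast at h2
  set u := Phi α (1 / R) Z with hu
  have hu0 : 0 ≤ u := Phi_nonneg _ _ _
  have h4 : X + (Z : ℝ) ^ 2 / R ≤ 5 * X ^ 2 := by nlinarith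
  set b : ℝ := 2000 * τ ^ 2 * Λ * X with hb
  have hb0 : 0 ≤ b := by positivity
  have h5 : u ^ 2 ≤ 20 * τ ^ 2 * u + b ^ 2 := by
    have h6 : 36000 * τ ^ 2 * Λ ^ 2 * (X + (Z : ℝ) ^ 2 / R) ≤ 36000 * τ ^ 2 * Λ ^ 2 * (5 * X ^ 2) :=
      mul_le_mul_of_nonneg_left h4 (by positivity)
    have h7 := mul_le_mul_of_nonneg_left (h2.trans (add_le_add le_rfl h6))
      (show (0 : ℝ) ≤ 20 * τ ^ 2 by positivity)
    have h8 : 0 ≤ (τ : ℝ) ^ 4 * Λ ^ 2 * X ^ 2 := by positivity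
    rw [hb]; nlinarith
  have h6 : u ≤ 20 * τ ^ 2 + b := by
    by_contra h
    push Not at h
    have : (0 : ℝ) ≤ 20 * τ ^ 2 := by positivity
    nlinarith
  have h7 : (τ : ℝ) ^ 2 ≤ τ ^ 3 := pow_le_pow_right₀ hτ1' (by norm_num)
  have h8 : Λ ≤ Λ ^ 2 := by nlinarith
  have h9 : (τ : ℝ) ^ 2 * Λ ^ 2 * X ≤ τ ^ 3 * Λ ^ 2 * X := by gcongr
  have h10 : (τ : ℝ) ^ 2 * Λ * X ≤ τ ^ 2 * Λ ^ 2 * X := by gcongr
  have h11 : (τ : ℝ) ^ 2 * 1 * 1 ≤ τ ^ 2 * Λ * X := by gcongr; linarith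
  have h12 : 0 ≤ (τ : ℝ) ^ 2 := by positivity
  rw [← hX] at h3
  rw [hb] at h6
  nlinarith

lemma Phi_eps (ε : ℝ) (hε : 0 < ε) : ∃ C : ℝ, 0 < C ∧ ∀ (α : ℝ) (R M : ℕ), 1 / 7 ≤ α → 1 ≤ R →
    R ≤ M → Good (α * R) R M → Phi α (1 / R) M ≤ C * (M : ℝ) ^ ε * (M / R) := by
  set η := ε / 40 with hη
  have hη0 : 0 < η := by positivity
  obtain ⟨C, hC1, hC⟩ := divisor_bound η hη0
  set c := (8 : ℝ) ^ η with hc
  have hc0 : 0 < c := by positivity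
  refine ⟨10 ^ 6 * (C * c) ^ 3 * (c / η + 21) ^ 2, by positivity, fun α R M hα hR hM hG => ?_⟩
  have hM1 : (1 : ℝ) ≤ M := by exact_mod_cast hR.trans hM
  have hM0 : (0 : ℝ) < M := by linarith
  set t := (M : ℝ) ^ η with ht
  have ht1 : 1 ≤ t := Real.one_le_rpow hM1 hη0.le
  have hp : ∀ k : ℕ, (8 * (M : ℝ) ^ k) ^ η = c * t ^ k := by
    intro k
    rw [Real.mul_rpow (by norm_num) (by positivity), ← Real.rpow_natCast, ← Real.rpow_mul hM0.le,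
      mul_comm (k : ℝ), Real.rpow_mul hM0.le, Real.rpow_natCast]
  have h1 := Phi_bound (τ := ⌊C * c * t ^ 12⌋₊) hα hR hM hG (fun n hn => Nat.le_floor (by
    refine (hC n).trans ?_
    rw [mul_assoc, ← hp]
    exact mul_le_mul_of_nonneg_left (Real.rpow_le_rpow (by positivity) hn hη0.le) (by linarith)))
  have h2 : (⌊C * c * t ^ 12⌋₊ : ℝ) ≤ C * c * t ^ 12 := Nat.floor_le (by positivity)
  have h3 : Real.log (8 * M ^ 2) + 21 ≤ (c / η + 21) * t ^ 2 := by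
    have h4 := Real.log_le_rpow_div (show (0 : ℝ) ≤ 8 * M ^ 2 by positivity) hη0
    rw [hp] at h4
    have h5 : 1 ≤ t ^ 2 := one_le_pow₀ ht1
    have e : c * t ^ 2 / η = c / η * t ^ 2 := by ring
    nlinarith
  have h4 : 0 ≤ Real.log (8 * M ^ 2) := Real.log_nonneg (by nlinarith)
  have h5 : t ^ 40 = (M : ℝ) ^ ε := by
    rw [ht, ← Real.rpow_natCast, ← Real.rpow_mul hM0.le, hη]; congr 1; push_cast; ring
  refine h1.trans (mul_le_mul_of_nonneg_right ?_ (by positivity))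
  calc _ ≤ 10 ^ 6 * (C * c * t ^ 12) ^ 3 * ((c / η + 21) * t ^ 2) ^ 2 := by gcongr
    _ = _ := by rw [← h5]; ring

lemma Good.mono {T T' R M : ℝ} (h : Good T R M) (h0 : 0 ≤ T') (hT : T' ≤ T) (hR : 0 ≤ R) :
    Good T' R M := by
  rcases h with h | ⟨h1, h2, h3⟩
  · exact Or.inl (le_trans (by gcongr) h)
  · exact Or.inr ⟨hT.trans h1, le_trans (by gcongr) h2, le_trans (by gcongr) h3⟩

lemma good_of_pow {T R M : ℝ} (hT : 0 ≤ T) (hR : 1 ≤ R) (hM : R ≤ M) (h : T ^ 5 ≤ M ^ 8) :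
    Good T R M := by
  have hM1 : 1 ≤ M := hR.trans hM
  by_cases h1 : R ^ 5 ≤ M ^ 4
  · refine Or.inl (le_of_pow_le_pow_left₀ (n := 5) (by norm_num) (by positivity) ?_)
    calc (T ^ 2 * R) ^ 5 = (T ^ 5) ^ 2 * R ^ 5 := by ring
      _ ≤ (M ^ 8) ^ 2 * M ^ 4 := by gcongr
      _ = _ := by ring
  · push Not at h1
    refine Or.inr ⟨le_of_pow_le_pow_left₀ (n := 5) (by norm_num) (by positivity) ?_,
      le_of_pow_le_pow_left₀ (n := 5) (by norm_num) (by positivity) ?_, ?_⟩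
    · calc T ^ 5 ≤ M ^ 8 := h
        _ ≤ M ^ 9 := pow_le_pow_right₀ hM1 (by norm_num)
        _ = M ^ 5 * M ^ 4 := by ring
        _ ≤ M ^ 5 * R ^ 5 := by gcongr
        _ = _ := by ring
    · calc (T ^ 8 * R ^ 3) ^ 5 = (T ^ 5) ^ 8 * R ^ 15 := by ring
        _ ≤ (M ^ 8) ^ 8 * M ^ 15 := by gcongr
        _ = M ^ 79 := by ring
        _ ≤ M ^ 80 := pow_le_pow_right₀ hM1 (by norm_num)
        _ = _ := by ring
    · calc T ^ 5 * R ^ 6 ≤ M ^ 8 * M ^ 6 := by gcongr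
        _ = _ := by ring

/-- The Dirichlet polynomial. -/
noncomputable def DD (N : ℕ) (a : ℕ → ℂ) (t : ℝ) : ℂ :=
  ∑ n ∈ Finset.Icc 1 N, a n * Complex.exp (Complex.I * (t : ℂ) * (Real.log (n : ℝ) : ℂ))

lemma ap_bound (ε : ℝ) (hε : 0 < ε) : ∃ C : ℝ, 0 < C ∧ ∀ (N R M : ℕ) (h t₀ : ℝ) (a : ℕ → ℂ),
    4 ≤ R → R ≤ M → N ≤ M → 1 ≤ h → Good (h / (2 * π) * R) R M → (∀ n ∈ Icc 1 N, ‖a n‖ ≤ 1) →
    ∑ j ∈ range R, ‖DD N a (t₀ + j * h)‖ ^ 2 ≤ C * (M : ℝ) ^ ε * M * N := by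
  obtain ⟨C, hC0, hC⟩ := Phi_eps ε hε
  refine ⟨54 * C, by positivity, fun N R M h t₀ a hR hM hN hh hG ha => ?_⟩
  have hπ := Real.pi_pos
  have hR0 : (0 : ℝ) < R := by exact_mod_cast (by omega : 0 < R)
  have hα : 1 / 7 ≤ h / (2 * π) := by
    rw [div_le_div_iff₀ (by norm_num) (by positivity)]; linarith [Real.pi_lt_d2]
  have h1 := fejer (Icc 1 N) (fun n : ℕ => h / (2 * π) * Real.log n)
    (fun n => a n * Complex.exp (Complex.I * (t₀ : ℂ) * (Real.log (n : ℝ) : ℂ))) (fun n hn => by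
      rw [norm_mul, mul_assoc, ← Complex.ofReal_mul, Complex.norm_exp_I_mul_ofReal, mul_one]
      exact ha n hn) R hR
  have h2 : ∀ j : ℕ, DD N a (t₀ + j * h) = ∑ n ∈ Icc 1 N,
      a n * Complex.exp (Complex.I * (t₀ : ℂ) * (Real.log (n : ℝ) : ℂ)) *
        ee (j * (h / (2 * π) * Real.log n)) := by
    intro j
    refine Finset.sum_congr rfl fun n _ => ?_
    have e : 2 * π * (j * (h / (2 * π) * Real.log n)) = j * h * Real.log n := by field_simp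
    rw [mul_assoc (a n), ee, ← Complex.exp_add, e]
    congr 2; push_cast; ring
  simp only [h2]
  refine h1.trans ?_
  have h3 : (WW (h / (2 * π)) (1 / R) N : ℝ) ≤ N * (C * (M : ℝ) ^ ε * (M / R)) :=
    (WW_le _ _ _).trans (mul_le_mul_of_nonneg_left
      ((Phi_mono _ _ hN).trans (hC _ R M hα (by omega) hM hG)) (by positivity))
  refine (mul_le_mul_of_nonneg_left h3 (show (0 : ℝ) ≤ 54 * R by positivity)).trans_eq ?_
  field_simp

end Pool.Agent.MP_71ac24_nt
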