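import Pool.Agent.MP_71ac24_nt.Mg.Main

/-!
Points within distance one of an arithmetic progression.
-/

set_option autoImplicit false

open Finset Real

namespace Pool.Agent.MP_71ac24_nt

lemma DD_sub (N : ℕ) (a : ℕ → ℂ) (s v w : ℝ) : DD N a (s + v + w) - DD N a (s + v) =
    DD N (fun n => a n * Complex.exp (Complex.I * (v * Real.log n : ℝ)) *
      (Complex.exp (Complex.I * (w * Real.log n : ℝ)) - 1)) s := by
  simp only [DD, ← Finset.sum_sub_distrib]
  refine Finset.sum_congr rfl fun n _ => ?_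
  have e1 : Complex.exp (Complex.I * ((s + v + w : ℝ) : ℂ) * (Real.log (n : ℝ) : ℂ)) =
      Complex.exp (Complex.I * (v * Real.log n : ℝ)) * Complex.exp (Complex.I * (w * Real.log n : ℝ)) *
        Complex.exp (Complex.I * (s : ℂ) * (Real.log (n : ℝ) : ℂ)) := by
    rw [← Complex.exp_add, ← Complex.exp_add]; congr 1; push_cast; ring
  have e2 : Complex.exp (Complex.I * ((s + v : ℝ) : ℂ) * (Real.log (n : ℝ) : ℂ)) =
      Complex.exp (Complex.I * (v * Real.log n : ℝ)) *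
        Complex.exp (Complex.I * (s : ℂ) * (Real.log (n : ℝ) : ℂ)) := by
    rw [← Complex.exp_add]; congr 1; push_cast; ring
  rw [e1, e2]; ring

lemma coeff_le {N n : ℕ} (hn : n ∈ Icc 1 N) {z : ℂ} (hz : ‖z‖ ≤ 1) (v : ℝ) {w : ℝ} (hw : 0 ≤ w) :
    ‖z * Complex.exp (Complex.I * (v * Real.log n : ℝ)) *
      (Complex.exp (Complex.I * (w * Real.log n : ℝ)) - 1)‖ ≤ w * Real.log N := by
  obtain ⟨h1, h2⟩ := Finset.mem_Icc.1 hn
  have h3 : Real.log n ≤ Real.log N := Real.log_le_log (by exact_mod_cast h1) (by exact_mod_cast h2)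
  have h4 : 0 ≤ Real.log n := Real.log_natCast_nonneg _
  have h5 := Real.norm_exp_I_mul_ofReal_sub_one_le (x := w * Real.log n)
  rw [Real.norm_of_nonneg (by positivity)] at h5
  rw [norm_mul, norm_mul, Complex.norm_exp_I_mul_ofReal, mul_one]
  calc _ ≤ 1 * (w * Real.log N) :=
        mul_le_mul hz (h5.trans (mul_le_mul_of_nonneg_left h3 hw)) (norm_nonneg _) zero_le_one
    _ = _ := one_mul _

lemma norm_DD_le (N : ℕ) (b : ℕ → ℂ) (c : ℝ) (hb : ∀ n ∈ Icc 1 N, ‖b n‖ ≤ c) (t : ℝ) :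
    ‖DD N b t‖ ≤ N * c := by
  refine (norm_sum_le _ _).trans ?_
  calc _ ≤ ∑ _n ∈ Icc 1 N, c := Finset.sum_le_sum fun n hn => by
        rw [norm_mul, mul_assoc, ← Complex.ofReal_mul, Complex.norm_exp_I_mul_ofReal, mul_one]
        exact hb n hn
    _ = _ := by simp

lemma perturb (N R : ℕ) (hN : 1 ≤ N) (s t : ℕ → ℝ) (B : ℝ)
    (hB : ∀ b : ℕ → ℂ, (∀ n ∈ Icc 1 N, ‖b n‖ ≤ 1) → ∑ j ∈ range R, ‖DD N b (s j)‖ ^ 2 ≤ B)
    (hst : ∀ j ∈ range R, s j ≤ t j ∧ t j ≤ s j + 2) (a : ℕ → ℂ) (ha : ∀ n ∈ Icc 1 N, ‖a n‖ ≤ 1) :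
    ∑ j ∈ range R, ‖DD N a (t j)‖ ^ 2 ≤ 3 * (B + 4 * (Real.log N + 1) ^ 2 * B + R) := by
  have hN1 : (1 : ℝ) ≤ N := by exact_mod_cast hN
  have hlog : 0 ≤ Real.log N := Real.log_natCast_nonneg _
  have hlogN : Real.log N ≤ N := (Real.log_le_sub_one_of_pos (by linarith)).trans (by linarith)
  set G : ℝ := (N : ℝ) ^ 2 with hG
  have hG0 : 0 < G := by positivity
  set c : ℝ := (Real.log N + 1) / G with hc
  have hc0 : 0 < c := by positivity
  set b : ℕ → ℕ → ℂ := fun l n => a n * Complex.exp (Complex.I * (l / G * Real.log n : ℝ)) *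
      (Complex.exp (Complex.I * (1 / G * Real.log n : ℝ)) - 1) with hb
  have hbB : ∀ l, ∑ j ∈ range R, ‖DD N (b l) (s j)‖ ^ 2 ≤ c ^ 2 * B := by
    intro l
    have h1 := hB (fun n => b l n / c) (fun n hn => by
      rw [norm_div, Complex.norm_real, Real.norm_of_nonneg hc0.le, div_le_one hc0]
      refine (coeff_le hn (ha n hn) _ (by positivity)).trans ?_
      rw [hc, one_div_mul_eq_div]; gcongr; linarith)
    have h2 : ∀ x, DD N (b l) x = c * DD N (fun n => b l n / c) x := by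
      intro x
      have : (c : ℂ) ≠ 0 := by exact_mod_cast hc0.ne'
      simp only [DD, Finset.mul_sum]
      exact Finset.sum_congr rfl fun n _ => by field_simp
    simp only [h2, norm_mul, mul_pow, Complex.norm_real, Real.norm_of_nonneg hc0.le]
    rw [← Finset.mul_sum]
    exact mul_le_mul_of_nonneg_left h1 (by positivity)
  have hpt : ∀ j ∈ range R, ‖DD N a (t j)‖ ^ 2 ≤ 3 * (‖DD N a (s j)‖ ^ 2 +
      2 * G * ∑ l ∈ range (2 * N ^ 2), ‖DD N (b l) (s j)‖ ^ 2 + 1) := by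
    intro j hj
    obtain ⟨h1, h2⟩ := hst j hj
    set m : ℕ := ⌊(t j - s j) * G⌋₊ with hm
    have hm1 : (m : ℝ) ≤ (t j - s j) * G := Nat.floor_le (mul_nonneg (by linarith) hG0.le)
    have hm2 : (t j - s j) * G < m + 1 := Nat.lt_floor_add_one _
    have hm3 : (m : ℝ) ≤ 2 * G := by nlinarith
    have hm4 : m ≤ 2 * N ^ 2 := by rw [hG] at hm3; exact_mod_cast hm3
    set w := t j - s j - m / G with hw
    have hw0 : 0 ≤ w := by rw [hw, sub_nonneg, div_le_iff₀ hG0]; exact hm1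
    have hw1 : w * G ≤ 1 := by
      have : w * G = (t j - s j) * G - m := by rw [hw]; field_simp
      linarith
    have e1 : DD N a (s j + m / G) - DD N a (s j) = ∑ l ∈ range m, DD N (b l) (s j) := by
      have := Finset.sum_range_sub (fun l : ℕ => DD N a (s j + l / G)) m
      simp only [Nat.cast_zero, zero_div, add_zero] at this
      rw [← this]
      refine Finset.sum_congr rfl fun l _ => ?_
      rw [hb, ← DD_sub]
      congr 2; push_cast; ring
    have e2 : ‖DD N a (t j) - DD N a (s j + m / G)‖ ≤ 1 := by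
      rw [show t j = s j + m / G + w by rw [hw]; ring, DD_sub]
      refine (norm_DD_le N _ _ (fun n hn => coeff_le hn (ha n hn) _ hw0) _).trans ?_
      calc N * (w * Real.log N) ≤ N * (w * N) := by gcongr
        _ = w * G := by rw [hG]; ring
        _ ≤ 1 := hw1
    have e3 : ‖∑ l ∈ range m, DD N (b l) (s j)‖ ^ 2 ≤
        2 * G * ∑ l ∈ range (2 * N ^ 2), ‖DD N (b l) (s j)‖ ^ 2 := by
      calc _ ≤ (∑ l ∈ range m, ‖DD N (b l) (s j)‖) ^ 2 :=
            pow_le_pow_left₀ (norm_nonneg _) (norm_sum_le _ _) 2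
        _ ≤ #(range m) * ∑ l ∈ range m, ‖DD N (b l) (s j)‖ ^ 2 := sq_sum_le_card_mul_sum_sq
        _ ≤ _ := by
            rw [Finset.card_range]
            exact mul_le_mul hm3 (Finset.sum_le_sum_of_subset_of_nonneg (Finset.range_mono hm4)
              fun _ _ _ => by positivity) (by positivity) (by positivity)
    have e4 : ‖DD N a (t j)‖ ≤ ‖DD N a (s j)‖ + ‖∑ l ∈ range m, DD N (b l) (s j)‖ + 1 := by
      have : DD N a (t j) = DD N a (s j) + ∑ l ∈ range m, DD N (b l) (s j) +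
          (DD N a (t j) - DD N a (s j + m / G)) := by rw [← e1]; ring
      rw [this]
      exact (norm_add_le _ _).trans (add_le_add (norm_add_le _ _) e2)
    have e5 := pow_le_pow_left₀ (norm_nonneg _) e4 2
    set x := ‖DD N a (s j)‖
    set y := ‖∑ l ∈ range m, DD N (b l) (s j)‖
    nlinarith [sq_nonneg (x - y), sq_nonneg (x - 1), sq_nonneg (y - 1)]
  refine (Finset.sum_le_sum hpt).trans ?_
  rw [← Finset.mul_sum, Finset.sum_add_distrib, Finset.sum_add_distrib, ← Finset.mul_sum,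
    Finset.sum_comm]
  have h1 := hB a ha
  have h2 : ∑ l ∈ range (2 * N ^ 2), ∑ j ∈ range R, ‖DD N (b l) (s j)‖ ^ 2 ≤ 2 * G * (c ^ 2 * B) := by
    refine (Finset.sum_le_sum fun l _ => hbB l).trans_eq ?_
    simp [hG]
  have h3 : 2 * G * (2 * G * (c ^ 2 * B)) = 4 * (Real.log N + 1) ^ 2 * B := by
    rw [hc]; field_simp; ring
  have h4 := mul_le_mul_of_nonneg_left h2 (show 0 ≤ 2 * G by positivity)
  simp only [Finset.sum_const, Finset.card_range, nsmul_eq_mul, mul_one]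
  linarith

lemma rpow_natCast_mul' {x : ℝ} (hx : 0 ≤ x) (y : ℝ) (n m : ℕ) (h : y * n = m) :
    (x ^ y) ^ n = x ^ m := by
  rw [← Real.rpow_natCast, ← Real.rpow_mul hx, h, Real.rpow_natCast]

lemma good_of_min {T R M : ℝ} (hT : 0 ≤ T) (hR : 1 ≤ R) (hM : R ≤ M)
    (h : min (T ^ (5 / 8 : ℝ)) (T / R + T ^ (1 / 2 : ℝ) * R ^ (3 / 16 : ℝ) +
      T ^ (5 / 14 : ℝ) * R ^ (3 / 7 : ℝ)) ≤ M) : Good T R M := by
  have hR0 : 0 < R := by linarith
  rcases min_le_iff.1 h with h | h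
  · refine good_of_pow hT hR hM ?_
    rw [← rpow_natCast_mul' hT (5 / 8) 8 5 (by norm_num)]
    exact pow_le_pow_left₀ (by positivity) h 8
  · have a1 : 0 ≤ T / R := by positivity
    have a2 : 0 ≤ T ^ (1 / 2 : ℝ) * R ^ (3 / 16 : ℝ) := by positivity
    have a3 : 0 ≤ T ^ (5 / 14 : ℝ) * R ^ (3 / 7 : ℝ) := by positivity
    refine Or.inr ⟨(div_le_iff₀ hR0).1 (by linarith), ?_, ?_⟩
    · rw [← rpow_natCast_mul' hT (1 / 2) 16 8 (by norm_num),
        ← rpow_natCast_mul' hR0.le (3 / 16) 16 3 (by norm_num), ← mul_pow]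
      exact pow_le_pow_left₀ a2 (by linarith) 16
    · rw [← rpow_natCast_mul' hT (5 / 14) 14 5 (by norm_num),
        ← rpow_natCast_mul' hR0.le (3 / 7) 14 6 (by norm_num), ← mul_pow]
      exact pow_le_pow_left₀ a3 (by linarith) 14

theorem main (ε : ℝ) (hε : 0 < ε) : ∃ C : ℝ, 0 < C ∧ ∀ (N R : ℕ) (T t₀ h : ℝ) (a : ℕ → ℂ)
    (t : ℕ → ℝ), 1 ≤ N → 0 ≤ T → T ≤ (N : ℝ) ^ 2 → 1 ≤ h → (∀ n, ‖a n‖ ≤ 1) →
    (∀ j < R, 0 ≤ t j ∧ t j ≤ T ∧ |t j - (t₀ + j * h)| ≤ 1) →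
    ∑ j ∈ range R, ‖DD N a (t j)‖ ^ 2 ≤ C * (N : ℝ) ^ ε *
      (N + R + min (T ^ (5 / 8 : ℝ)) (T / R + T ^ (1 / 2 : ℝ) * (R : ℝ) ^ (3 / 16 : ℝ) +
        T ^ (5 / 14 : ℝ) * (R : ℝ) ^ (3 / 7 : ℝ))) * N := by
  set η := ε / 6 with hη
  have hη0 : 0 < η := by positivity
  obtain ⟨C, hC0, hC⟩ := ap_bound η hη0
  refine ⟨3 * (10 * (C * 4 ^ η) * (1 / η + 1) ^ 2 + 1), by positivity,
    fun N R T t₀ h a t hN hT0 hT hh ha ht => ?_⟩
  set E := min (T ^ (5 / 8 : ℝ)) (T / R + T ^ (1 / 2 : ℝ) * (R : ℝ) ^ (3 / 16 : ℝ) +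
        T ^ (5 / 14 : ℝ) * (R : ℝ) ^ (3 / 7 : ℝ)) with hE
  have hE0 : 0 ≤ E := le_min (by positivity) (by positivity)
  have hN1 : (1 : ℝ) ≤ N := by exact_mod_cast hN
  have hNε : 1 ≤ (N : ℝ) ^ ε := Real.one_le_rpow hN1 hε.le
  have hK : 0 ≤ 10 * (C * 4 ^ η) * (1 / η + 1) ^ 2 := by positivity
  by_cases hR : R < 4
  · have h1 : ∑ j ∈ range R, ‖DD N a (t j)‖ ^ 2 ≤ ∑ _j ∈ range R, ((N : ℝ) * 1) ^ 2 :=
      Finset.sum_le_sum fun j _ =>
        pow_le_pow_left₀ (norm_nonneg _) (norm_DD_le N a 1 (fun n _ => ha n) _) 2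
    have h2 : (R : ℝ) ≤ 3 := by exact_mod_cast (by omega : R ≤ 3)
    simp only [Finset.sum_const, Finset.card_range, nsmul_eq_mul, mul_one] at h1
    refine h1.trans ?_
    have h3 : (0 : ℝ) ≤ R := by positivity
    calc (R : ℝ) * (N : ℝ) ^ 2 ≤ (3 : ℝ) * (N : ℝ) ^ 2 := by gcongr
      _ = (3 : ℝ) * (0 + 1) * 1 * ((N : ℝ) + 0 + 0) * (N : ℝ) := by ring
      _ ≤ _ := by gcongr
  push Not at hR
  have hR4 : (4 : ℝ) ≤ R := by exact_mod_cast hR
  -- the length of the progression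
  have hlen : (R - 1) * h ≤ T + 2 := by
    obtain ⟨a1, -, a3⟩ := ht 0 (by omega)
    obtain ⟨-, b2, b3⟩ := ht (R - 1) (by omega)
    have e : ((R - 1 : ℕ) : ℝ) = R - 1 := by rw [Nat.cast_sub (by omega)]; simp
    rw [e] at b3
    have := (abs_le.1 a3).2
    have := (abs_le.1 a3).1
    have := (abs_le.1 b3).1
    simp only [Nat.cast_zero, zero_mul, add_zero] at *
    linarith
  have hT1 : 1 ≤ T := by nlinarith
  have hαT : h / (2 * π) * R ≤ T := by
    rw [div_mul_eq_mul_div, div_le_iff₀ (by positivity)]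
    have := Real.pi_gt_three
    nlinarith
  have hET : E ≤ T := (min_le_left _ _).trans (Real.rpow_le_self_of_one_le hT1 (by norm_num))
  have hE1 : (⌈E⌉₊ : ℝ) < E + 1 := Nat.ceil_lt_add_one hE0
  set M := max N (max R ⌈E⌉₊) with hM
  have hNM : N ≤ M := le_max_left _ _
  have hRM : R ≤ M := (le_max_left _ _).trans (le_max_right _ _)
  have hEM : ⌈E⌉₊ ≤ M := (le_max_right _ _).trans (le_max_right _ _)
  have hRM' : (R : ℝ) ≤ M := by exact_mod_cast hRM
  have hM1 : (M : ℝ) ≤ 2 * (N + R + E) := by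
    rw [hM]; push_cast
    exact max_le (by linarith) (max_le (by linarith) (by linarith))
  have hM2 : (M : ℝ) ≤ 4 * N ^ 2 := by
    rw [hM]; push_cast
    exact max_le (by nlinarith) (max_le (by nlinarith) (by nlinarith))
  have hG : Good (h / (2 * π) * R) R M :=
    (good_of_min hT0 (by linarith) hRM' (Nat.ceil_le.1 hEM)).mono (by positivity) hαT (by positivity)
  have h1 := perturb N R hN (fun j => t₀ - 1 + j * h) t (C * (M : ℝ) ^ η * M * N)
    (fun b hb => hC N R M h (t₀ - 1) b hR hRM hNM hh hG hb) (fun j hj => by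
      have := abs_le.1 (ht j (Finset.mem_range.1 hj)).2.2
      constructor <;> linarith [this.1, this.2]) a (fun n _ => ha n)
  refine h1.trans ?_
  set u := (N : ℝ) ^ η with hu
  have hu1 : 1 ≤ u := Real.one_le_rpow hN1 hη0.le
  have h2 : (M : ℝ) ^ η ≤ 4 ^ η * u ^ 2 := by
    refine (Real.rpow_le_rpow (by positivity) hM2 hη0.le).trans_eq ?_
    rw [Real.mul_rpow (by norm_num) (by positivity), ← Real.rpow_natCast,
      ← Real.rpow_mul (by positivity), mul_comm ((2 : ℕ) : ℝ), Real.rpow_mul (by positivity),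
      Real.rpow_natCast]
  have h3 : Real.log N + 1 ≤ (1 / η + 1) * u := by
    have := Real.log_le_rpow_div (show (0 : ℝ) ≤ N by positivity) hη0
    rw [← hu, div_eq_mul_one_div] at this
    nlinarith
  have h4 : u ^ 4 ≤ (N : ℝ) ^ ε := by
    rw [hu, ← Real.rpow_natCast, ← Real.rpow_mul (by positivity)]
    refine Real.rpow_le_rpow_of_exponent_le hN1 ?_
    rw [hη]; push_cast; linarith
  have hlog : 0 ≤ Real.log N := Real.log_natCast_nonneg _
  have h5 : C * (M : ℝ) ^ η * M * N + 4 * (Real.log N + 1) ^ 2 * (C * (M : ℝ) ^ η * M * N) ≤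
      10 * (C * 4 ^ η) * (1 / η + 1) ^ 2 * (N : ℝ) ^ ε * (N + R + E) * N := by
    have h6 : 1 ≤ (Real.log N + 1) ^ 2 := one_le_pow₀ (by linarith)
    have h7 : 0 ≤ C * (M : ℝ) ^ η * M * N := by positivity
    calc _ ≤ 5 * (Real.log N + 1) ^ 2 * (C * (M : ℝ) ^ η * M * N) := by nlinarith
      _ ≤ 5 * ((1 / η + 1) * u) ^ 2 * (C * (4 ^ η * u ^ 2) * (2 * (N + R + E)) * N) := by gcongr
      _ = 10 * (C * 4 ^ η) * (1 / η + 1) ^ 2 * u ^ 4 * (N + R + E) * N := by ring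
      _ ≤ _ := by gcongr
  have h6 : (R : ℝ) ≤ (N : ℝ) ^ ε * (N + R + E) * N := by
    calc (R : ℝ) = 1 * (0 + R + 0) * 1 := by ring
      _ ≤ _ := by gcongr; positivity
  nlinarith

end Pool.Agent.MP_71ac24_nt
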